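import Pool.Graph.R_pool_sql_team_seeded_843ab51a.V1141.SO.Lie

/-!
# Representations with their duals, and the operators which kill all Tate forms
-/

set_option autoImplicit false
set_option linter.unusedSectionVars false

namespace Pool.Agent.Helper86.LT

open Module Pool.Agent.V1141.OF Pool.Agent.V1141.SO
open Pool.Agent.H204R3.CM Pool.Agent.H204R3.SP Pool.Agent.H204R3.GP
open Pool.Agent.Y137.MV (IsEqv kills_zero kills_add kills_smul kills_conj eqv_pull)

noncomputable section

/-- The sum of a representation and its dual. -/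
def dbl {k : Type} [Field k] {Γ : Type} [Group Γ] {V : Type} [AddCommGroup V] [Module k V]
    (ρ : Representation k Γ V) : Representation k Γ (V × Dual k V) where
  toFun g := LinearMap.prodMap (ρ g) (ρ g⁻¹).dualMap
  map_one' := by
    refine LinearMap.ext fun x => ?_
    rw [LinearMap.prodMap_apply, inv_one, map_one, Module.End.one_apply, Module.End.one_apply]
    rfl
  map_mul' g h := by
    refine LinearMap.ext fun x => ?_
    rw [Module.End.mul_apply, LinearMap.prodMap_apply, LinearMap.prodMap_apply,
      LinearMap.prodMap_apply, mul_inv_rev, map_mul, map_mul]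
    rfl

theorem dbl_apply {k : Type} [Field k] {Γ : Type} [Group Γ] {V : Type} [AddCommGroup V]
    [Module k V] (ρ : Representation k Γ V) (g : Γ) (x : V × Dual k V) :
    dbl ρ g x = (ρ g x.1, (ρ g⁻¹).dualMap x.2) := rfl

/-- The operator `X` on `V` and `-Xᵗ` on the dual space. -/
def hat {k : Type} [Field k] {V : Type} [AddCommGroup V] [Module k V] (X : Module.End k V) :
    Module.End k (V × Dual k V) := LinearMap.prodMap X (-X.dualMap)

section hat

variable {k : Type} [Field k] {V : Type} [AddCommGroup V] [Module k V]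

theorem hat_apply (X : Module.End k V) (x : V × Dual k V) :
    hat X x = (X x.1, -(X.dualMap x.2)) := rfl

theorem hat_zero : hat (0 : Module.End k V) = 0 := by
  refine LinearMap.ext fun x => Prod.ext rfl ?_
  refine LinearMap.ext fun v => ?_
  simp [hat_apply]

theorem hat_add (X Y : Module.End k V) : hat (X + Y) = hat X + hat Y := by
  refine LinearMap.ext fun x => Prod.ext rfl ?_
  refine LinearMap.ext fun v => ?_
  simp [hat_apply, LinearMap.dualMap_apply]
  ring

theorem hat_smul (c : k) (X : Module.End k V) : hat (c • X) = c • hat X := by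
  refine LinearMap.ext fun x => Prod.ext rfl ?_
  refine LinearMap.ext fun v => ?_
  simp [hat_apply, LinearMap.dualMap_apply]

theorem hat_br (X Y : Module.End k V) : hat (X * Y - Y * X) = hat X * hat Y - hat Y * hat X := by
  refine LinearMap.ext fun x => Prod.ext rfl ?_
  refine LinearMap.ext fun v => ?_
  simp [hat_apply, LinearMap.dualMap_apply]

theorem hat_conj {Γ : Type} [Group Γ] (ρ : Representation k Γ V) (g : Γ) (X : Module.End k V) :
    dbl ρ g * hat X * dbl ρ g⁻¹ = hat (ρ g * X * ρ g⁻¹) := by
  refine LinearMap.ext fun x => Prod.ext rfl ?_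
  refine LinearMap.ext fun v => ?_
  simp only [hat_apply, dbl_apply, Module.End.mul_apply, LinearMap.dualMap_apply,
    LinearMap.neg_apply, map_neg, inv_inv]

end hat

variable {k : Type} [Field k] [CharZero k] {I : Type} [Fintype I] [DecidableEq I] {V : I → Type}
  [∀ i, AddCommGroup (V i)] [∀ i, Module k (V i)] {M : Type} [AddCommGroup M] [Module k M]
  {Γ : Type} [Group Γ] (ρ : ∀ i, Representation k Γ (V i)) (τ : Representation k Γ M)

/-- The sum of all `V i` and their duals. -/
abbrev HH (k : Type) [Field k] {I : Type} (V : I → Type) [∀ i, AddCommGroup (V i)]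
    [∀ i, Module k (V i)] : Type := ∀ i, V i × Dual k (V i)

/-- The action on the sum of all `V i` and their duals. -/
abbrev RR : Representation k Γ (HH k V) := sumRep (V := fun i => V i × Dual k (V i))
  (fun i => dbl (ρ i))

/-- `X` on `V i` as an operator on the sum of all `V j` and their duals. -/
abbrev ih (i : I) (X : Module.End k (V i)) : Module.End k (HH k V) :=
  io (V := fun i => V i × Dual k (V i)) k i (hat X)

/-- The endomorphisms of `V i` which kill all scalar components of equivariant maps. -/
def lieA (i : I) : Submodule k (Module.End k (V i)) where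
  carrier := {X | ∀ (κ : Type) [Fintype κ] [DecidableEq κ]
    (φ : MultilinearMap k (fun _ : κ => HH k V) M) (l : M →ₗ[k] k),
      IsEqv (RR ρ) τ φ → Kills (ih i X) (l.compMultilinearMap φ)}
  zero_mem' := fun κ _ _ φ l _ => by
    change Kills (io (V := fun i => V i × Dual k (V i)) k i (hat 0)) _
    rw [hat_zero, io_zero]
    exact kills_zero
  add_mem' := fun {X Y} hX hY κ _ _ φ l h => by
    change Kills (io (V := fun i => V i × Dual k (V i)) k i (hat (X + Y))) _
    rw [hat_add, io_add]
    exact kills_add (hX κ φ l h) (hY κ φ l h)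
  smul_mem' := fun c X hX κ _ _ φ l h => by
    change Kills (io (V := fun i => V i × Dual k (V i)) k i (hat (c • X))) _
    rw [hat_smul, io_smul]
    exact kills_smul c (hX κ φ l h)

theorem lieA_bracket (i : I) {X Y : Module.End k (V i)} (hX : X ∈ lieA ρ τ i)
    (hY : Y ∈ lieA ρ τ i) : X * Y - Y * X ∈ lieA ρ τ i := by
  intro κ _ _ φ l h
  change Kills (io (V := fun i => V i × Dual k (V i)) k i (hat (X * Y - Y * X))) _
  rw [hat_br, io_sub, io_mul, io_mul]
  exact kills_bracket (hX κ φ l h) (hY κ φ l h)

theorem lieA_conj (i : I) (s : Γ) {X : Module.End k (V i)} (hX : X ∈ lieA ρ τ i) :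
    ρ i s * X * ρ i s⁻¹ ∈ lieA ρ τ i := by
  intro κ _ _ φ l h
  change Kills (io (V := fun i => V i × Dual k (V i)) k i (hat (ρ i s * X * ρ i s⁻¹))) _
  rw [← hat_conj, ← io_conj (fun i => dbl (ρ i))]
  refine kills_conj (RR ρ) s ?_
  have h1 := hX κ _ (l.comp (τ s)) (eqv_pull (RR ρ) τ h s)
  have h2 : (l.compMultilinearMap φ).compLinearMap (fun _ => RR ρ s) =
      (l.comp (τ s)).compMultilinearMap ((τ s⁻¹).compMultilinearMap
        (φ.compLinearMap (fun _ => RR ρ s))) := by
    refine MultilinearMap.ext fun v => ?_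
    change l (φ (fun j => RR ρ s (v j))) = l (τ s (τ s⁻¹ (φ (fun j => RR ρ s (v j)))))
    rw [← Module.End.mul_apply, ← map_mul, mul_inv_cancel, map_one]
    rfl
  rw [h2]
  exact h1

theorem lieA_opp [∀ i, FiniteDimensional k (V i)] (i : I) (X Y : Module.End k (V i)) (c : k)
    (hX : X ∈ lieA ρ τ i) (hH : X * Y - Y * X ∈ lieA ρ τ i)
    (hHY : (X * Y - Y * X) * Y - Y * (X * Y - Y * X) = c • Y) (hc : c ≠ 0) :
    Y ∈ lieA ρ τ i := by
  intro κ _ _ φ l h
  have h1 : Kills (ih i (X * Y - Y * X)) (l.compMultilinearMap φ) := hH κ φ l h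
  unfold ih at h1
  rw [hat_br, io_sub, io_mul, io_mul] at h1
  refine kills_opposite hc ?_ (hX κ φ l h) h1
  have h2 := congrArg (fun Z => io (V := fun i => V i × Dual k (V i)) k i (hat Z)) hHY
  rw [hat_br, hat_br, io_sub, io_mul, io_mul, io_sub, io_mul, io_mul, hat_smul, io_smul] at h2
  exact h2

end

end Pool.Agent.Helper86.LT
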