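import Mathlib

/-!
# Equivariant maps whose scalar components are combinations of forms with characters
-/

set_option autoImplicit false

namespace Pool.Agent.Helper86.LT

open Module

/-- An equivariant map with values in `M` all of whose scalar components are combinations of forms of
`P`, each of which is multiplied by a character, is a combination of equivariant products of forms of
`P` with vectors. -/
theorem abs_final {k : Type} [Field k] {N : ℕ} {H : Type} [AddCommGroup H] [Module k H]
    [FiniteDimensional k H] {M : Type} [AddCommGroup M]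
    [Module k M] [FiniteDimensional k M] {Γ : Type} [Group Γ] (τ : Representation k Γ M)
    (ρ : Γ → H → H) (P : Set (MultilinearMap k (fun _ : Fin N => H) k))
    (hP : ∀ g ∈ P, ∃ c : Γ → k, ∀ (s : Γ) (v : Fin N → H), g (fun l => ρ s (v l)) = c s * g v)
    (f : MultilinearMap k (fun _ : Fin N => H) M)
    (hf : ∃ Δ : Subgroup Γ, Δ.FiniteIndex ∧ ∀ s ∈ Δ, ∀ v : Fin N → H,
      f (fun l => ρ s (v l)) = τ s (f v))
    (hc : ∀ l : M →ₗ[k] k, l.compMultilinearMap f ∈ Submodule.span k P) :
    f ∈ Submodule.span k {h : MultilinearMap k (fun _ : Fin N => H) M |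
      (∃ g ∈ P, ∃ w : M, ∀ v, h v = g v • w) ∧
      ∃ Δ : Subgroup Γ, Δ.FiniteIndex ∧ ∀ s ∈ Δ, ∀ v : Fin N → H,
        h (fun l => ρ s (v l)) = τ s (h v)} := by
  classical
  obtain ⟨S, hS1, hS2, hS3⟩ := exists_linearIndependent k P
  have hfin : Finite S := hS3.finite
  have _ : Fintype S := Fintype.ofFinite S
  -- the coefficients
  let BS : Basis S k (Submodule.span k (Set.range
    ((↑) : S → MultilinearMap k (fun _ : Fin N => H) k))) := Basis.span hS3
  have hrange : Submodule.span k (Set.range
      ((↑) : S → MultilinearMap k (fun _ : Fin N => H) k)) = Submodule.span k P := by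
    rw [Subtype.range_coe, hS2]
  let T : Module.Dual k M →ₗ[k]
      (Submodule.span k (Set.range ((↑) : S → MultilinearMap k (fun _ : Fin N => H) k))) :=
    { toFun := fun l => ⟨l.compMultilinearMap f, by rw [hrange]; exact hc l⟩
      map_add' := fun l l' => Subtype.ext (MultilinearMap.ext fun v => rfl)
      map_smul' := fun c l => Subtype.ext (MultilinearMap.ext fun v => rfl) }
  let w : S → M := fun g => (Module.evalEquiv k M).symm ((BS.coord g).comp T)
  have hw : ∀ g (l : Module.Dual k M), l (w g) = BS.coord g (T l) := by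
    intro g l
    have h1 := Module.apply_evalEquiv_symm_apply k M l ((BS.coord g).comp T)
    exact h1
  have hev : ∀ (G : S → MultilinearMap k (fun _ : Fin N => H) k) (v : Fin N → H),
      (∑ g, G g) v = ∑ g, G g v :=
    fun G v => by rw [sum_apply]
  have hfw : ∀ v, f v = ∑ g : S, (g : MultilinearMap k (fun _ : Fin N => H) k) v • w g := by
    intro v
    rw [← sub_eq_zero, ← Module.forall_dual_apply_eq_zero_iff k]
    intro l
    rw [map_sub, map_sum, sub_eq_zero]
    have h1 : l (f v) = ((T l : Submodule.span k (Set.range ((↑) : S →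
        MultilinearMap k (fun _ : Fin N => H) k))) : MultilinearMap k (fun _ : Fin N => H) k) v :=
      rfl
    rw [h1]
    conv_lhs => rw [← BS.sum_repr (T l)]
    have h2 : ∀ g : S, ((BS g : Submodule.span k (Set.range ((↑) : S →
        MultilinearMap k (fun _ : Fin N => H) k))) : MultilinearMap k (fun _ : Fin N => H) k) =
        (g : MultilinearMap k (fun _ : Fin N => H) k) := by
      intro g
      exact congrArg Subtype.val (Basis.span_apply hS3 g)
    rw [Submodule.coe_sum, hev]
    refine Finset.sum_congr rfl fun g _ => ?_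
    rw [Submodule.coe_smul, h2, map_smul, hw, smul_apply, smul_eq_mul,
      smul_eq_mul, mul_comm]
    rfl
  -- the vectors are eigenvectors
  obtain ⟨Δ0, hΔ0, hf⟩ := hf
  choose c hg using fun g : S => hP _ (hS1 g.2)
  have hwΔ : ∀ s ∈ Δ0, ∀ g, τ s (w g) = c g s • w g := by
    intro s hs g
    rw [← sub_eq_zero, ← Module.forall_dual_apply_eq_zero_iff k]
    intro l
    have h1 : ∑ g : S, (l (τ s (w g) - c g s • w g)) •
        (g : MultilinearMap k (fun _ : Fin N => H) k) = 0 := by
      ext v
      have h2 := hf s hs v
      rw [hfw, hfw, map_sum] at h2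
      simp only [hg, map_smul] at h2
      have h4 := congrArg l h2
      rw [map_sum, map_sum] at h4
      rw [hev]
      change ∑ g : S, (l (τ s (w g) - c g s • w g)) *
        (g : MultilinearMap k (fun _ : Fin N => H) k) v = 0
      have h6 : ∀ g : S, (l (τ s (w g) - c g s • w g)) *
          (g : MultilinearMap k (fun _ : Fin N => H) k) v =
          l ((g : MultilinearMap k (fun _ : Fin N => H) k) v • τ s (w g)) -
          l ((c g s * (g : MultilinearMap k (fun _ : Fin N => H) k) v) • w g) := by
        intro g
        rw [map_sub, map_smul, map_smul, map_smul, smul_eq_mul, smul_eq_mul, smul_eq_mul]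
        ring
      rw [Finset.sum_congr rfl (fun g _ => h6 g), Finset.sum_sub_distrib, h4, sub_self]
    exact (Fintype.linearIndependent_iff.1 hS3) _ h1 g
  have hfin2 : f = ∑ g : S, (LinearMap.toSpanSingleton k M (w g)).compMultilinearMap
      (g : MultilinearMap k (fun _ : Fin N => H) k) := by
    ext v
    rw [hfw, sum_apply]
    rfl
  rw [hfin2]
  refine Submodule.sum_mem _ fun g _ => Submodule.subset_span
    ⟨⟨g, hS1 g.2, w g, fun v => rfl⟩, Δ0, hΔ0, fun s hs v => ?_⟩
  change (g : MultilinearMap k (fun _ : Fin N => H) k) (fun l => ρ s (v l)) • w g =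
    τ s ((g : MultilinearMap k (fun _ : Fin N => H) k) v • w g)
  rw [hg, map_smul, hwΔ s hs g, smul_smul, mul_comm]

end Pool.Agent.Helper86.LT
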