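import Pool.Agent.Helper86.LT.Lie
import Pool.Graph.R_pool_sql_team_seeded_3997aac3.Q207.DB.GCore

/-!
# Coordinates
-/

set_option autoImplicit false
set_option linter.unusedSectionVars false

namespace Pool.Agent.Helper86.LT

open Module Pool.Agent.V1141.OF Pool.Agent.V1141.SO Q207.DB
open Pool.Agent.H204R3.CM Pool.Agent.H204R3.SP Pool.Agent.H204R3.GP
open Pool.Agent.Y137.MV (IsEqv)

noncomputable section

/-- **Descent** of a linear combination to the smaller field. -/
theorem descent {k : Type} [Field k] (j : k →+* ℂ) {X : Type} [Finite X] (S : Set (X → k))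
    {v : X → k} (hv : (fun x => j (v x)) ∈ Submodule.span ℂ {u : X → ℂ | ∃ s ∈ S, u = fun x => j (s x)}) :
    v ∈ Submodule.span k S := by
  classical
  have _ := Fintype.ofFinite X
  by_contra hcon
  obtain ⟨F, hF, hker⟩ := Submodule.exists_le_ker_of_notMem hcon
  let c : X → k := fun x => F (Pi.single x 1)
  have hFc : ∀ y : X → k, F y = ∑ x, y x * c x := by
    intro y
    conv_lhs => rw [← Finset.univ_sum_single y]
    rw [map_sum]
    refine Finset.sum_congr rfl fun x _ => ?_
    have h1 : (Pi.single x (y x) : X → k) = y x • Pi.single x 1 := by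
      rw [← Pi.single_smul, smul_eq_mul, mul_one]
    rw [h1, map_smul, smul_eq_mul]
  let G : (X → ℂ) →ₗ[ℂ] ℂ :=
    { toFun := fun y => ∑ x, y x * j (c x)
      map_add' := fun y z => by
        rw [← Finset.sum_add_distrib]
        exact Finset.sum_congr rfl fun x _ => by rw [Pi.add_apply]; ring
      map_smul' := fun a y => by
        rw [RingHom.id_apply, smul_eq_mul, Finset.mul_sum]
        exact Finset.sum_congr rfl fun x _ => by rw [Pi.smul_apply, smul_eq_mul]; ring }
  have hG : ∀ y : X → k, G (fun x => j (y x)) = j (F y) := by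
    intro y
    change ∑ x, j (y x) * j (c x) = _
    rw [hFc, map_sum]
    exact Finset.sum_congr rfl fun x _ => (map_mul j _ _).symm
  have h1 : Submodule.span ℂ {u : X → ℂ | ∃ s ∈ S, u = fun x => j (s x)} ≤ LinearMap.ker G := by
    rw [Submodule.span_le]
    rintro u ⟨s, hs, rfl⟩
    change G _ = 0
    rw [hG, LinearMap.mem_ker.1 (hker (Submodule.subset_span hs)), map_zero]
  have h2 := LinearMap.mem_ker.1 (h1 hv)
  rw [hG] at h2
  exact hF ((map_eq_zero j).1 h2)

/-- The labels: `(i, false)` stands for `V i`, and `(i, true)` for its dual. -/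
def lab {I : Type} (d : I → ℕ) : Labels (I × Bool) where
  star s := (s.1, !s.2)
  star_star := by
    rintro ⟨i, b⟩
    simp
  orth _ := false
  orth_star _ h := absurd h (by simp)
  dim s := d s.1
  dim_star _ := rfl

section letters

variable {I : Type} {d : I → ℕ}

theorem not_orth (x : Letter (lab d)) : ¬ (lab d).orth x.1 = true := by
  change ¬ false = true
  simp

/-- the letters of `V i` -/
abbrev lf (i : I) (a : Fin (d i)) : Letter (lab d) := ⟨(i, false), a⟩

/-- the letters of the dual of `V i` -/
abbrev lt (i : I) (a : Fin (d i)) : Letter (lab d) := ⟨(i, true), a⟩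

@[elab_as_elim]
theorem letter_cases {p : Letter (lab d) → Prop} (h1 : ∀ (i : I) (a : Fin (d i)), p (lf i a))
    (h2 : ∀ (i : I) (a : Fin (d i)), p (lt i a)) (x : Letter (lab d)) : p x := by
  obtain ⟨⟨i, β⟩, a⟩ := x
  cases β
  · exact h1 i a
  · exact h2 i a

theorem dual_lf (i : I) (a : Fin (d i)) : dual (lf i a) = lt i (Fin.rev a) := by
  rw [dual_of_not (not_orth _)]
  rfl

theorem dual_lt (i : I) (a : Fin (d i)) : dual (lt i a) = lf i (Fin.rev a) := by
  rw [dual_of_not (not_orth _)]
  rfl

/-- the sign of a letter -/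
def sgl (x : Letter (lab d)) : ℂ := if x.1.2 then -1 else 1

theorem sgl_lf (i : I) (a : Fin (d i)) : sgl (lf i a) = 1 := rfl

theorem sgl_lt (i : I) (a : Fin (d i)) : sgl (lt i a) = -1 := rfl

theorem sgl_dual (x : Letter (lab d)) : sgl (dual x) = -sgl x := by
  refine letter_cases (fun i a => ?_) (fun i a => ?_) x
  · rw [dual_lf, sgl_lf, sgl_lt]
  · rw [dual_lt, sgl_lf, sgl_lt, neg_neg]

theorem sgl_ne (x : Letter (lab d)) : sgl x ≠ 0 := by
  unfold sgl
  split_ifs <;> norm_num

/-- the bijection of the letters and the basis -/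
def leqv : (Σ i, Fin (d i) ⊕ Fin (d i)) ≃ Letter (lab d) where
  toFun x := match x with
    | ⟨i, Sum.inl a⟩ => lf i a
    | ⟨i, Sum.inr a⟩ => lt i (Fin.rev a)
  invFun x := match x with
    | ⟨(i, false), a⟩ => ⟨i, Sum.inl a⟩
    | ⟨(i, true), a⟩ => ⟨i, Sum.inr (Fin.rev a)⟩
  left_inv := by
    rintro ⟨i, a | a⟩
    · rfl
    · simp [Fin.rev_rev]
  right_inv := by
    intro x
    refine letter_cases (fun i a => ?_) (fun i a => ?_) x
    · rfl
    · change lt i (Fin.rev (Fin.rev a)) = _
      rw [Fin.rev_rev]

end letters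

variable {k : Type} [Field k] [CharZero k] {I : Type} [Fintype I] [DecidableEq I] {V : I → Type}
  [∀ i, AddCommGroup (V i)] [∀ i, Module k (V i)] {d : I → ℕ}
  (b : ∀ i, Basis (Fin (d i)) k (V i))

/-- the basis indexed by the letters -/
def lb : Basis (Letter (lab d)) k (HH k V) :=
  (Pi.basis fun i => (b i).prod (b i).dualBasis).reindex leqv

theorem lb_lf (i : I) (a : Fin (d i)) :
    lb b (lf i a) = LinearMap.single k (fun i => V i × Dual k (V i)) i (b i a, 0) := by
  unfold lb
  rw [Basis.reindex_apply]
  change (Pi.basis fun i => (b i).prod (b i).dualBasis) ⟨i, Sum.inl a⟩ = _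
  rw [Pi.basis_apply, Basis.prod_apply]
  rfl

theorem lb_lt (i : I) (a : Fin (d i)) :
    lb b (lt i a) =
      LinearMap.single k (fun i => V i × Dual k (V i)) i (0, (b i).dualBasis (Fin.rev a)) := by
  unfold lb
  rw [Basis.reindex_apply]
  change (Pi.basis fun i => (b i).prod (b i).dualBasis) ⟨i, Sum.inr (Fin.rev a)⟩ = _
  rw [Pi.basis_apply, Basis.prod_apply]
  rfl

theorem dual_comp {i : I} {x y : Fin (d i)} {X : Module.End k (V i)}
    (hX : ∀ z, X (b i z) = if z = x then b i y else 0) (a : Fin (d i)) :
    X.dualMap ((b i).dualBasis a) = if a = y then (b i).dualBasis x else 0 := by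
  refine (b i).ext fun z => ?_
  rw [LinearMap.dualMap_apply, hX, Basis.coe_dualBasis]
  by_cases h1 : z = x
  · rw [if_pos h1, Basis.coord_apply, Basis.repr_self]
    by_cases h2 : a = y
    · rw [if_pos h2, h2, Finsupp.single_eq_same, Basis.coord_apply, h1, Basis.repr_self,
        Finsupp.single_eq_same]
    · rw [if_neg h2, Finsupp.single_eq_of_ne h2, LinearMap.zero_apply]
  · rw [if_neg h1, map_zero]
    by_cases h2 : a = y
    · rw [if_pos h2, Basis.coord_apply, Basis.repr_self, Finsupp.single_eq_of_ne (Ne.symm h1)]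
    · rw [if_neg h2, LinearMap.zero_apply]

theorem ih_apply (i : I) (X : Module.End k (V i)) (v : HH k V) :
    ih i X v = LinearMap.single k (fun i => V i × Dual k (V i)) i (hat X (v i)) := rfl

theorem ih_lf_same {i : I} (X : Module.End k (V i)) (a : Fin (d i)) :
    ih i X (lb b (lf i a)) =
      LinearMap.single k (fun i => V i × Dual k (V i)) i (X (b i a), 0) := by
  have h1 : (LinearMap.single k (fun i => V i × Dual k (V i)) i (b i a, 0)) i = (b i a, 0) :=
    Pi.single_eq_same _ _
  rw [ih_apply, lb_lf, h1, hat_apply, map_zero, neg_zero]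

theorem ih_lt_same {i : I} (X : Module.End k (V i)) (a : Fin (d i)) :
    ih i X (lb b (lt i a)) = LinearMap.single k (fun i => V i × Dual k (V i)) i
      (0, -(X.dualMap ((b i).dualBasis (Fin.rev a)))) := by
  have h1 : (LinearMap.single k (fun i => V i × Dual k (V i)) i
      (0, (b i).dualBasis (Fin.rev a))) i = (0, (b i).dualBasis (Fin.rev a)) :=
    Pi.single_eq_same _ _
  rw [ih_apply, lb_lt, h1, hat_apply, map_zero]

theorem ih_ne {i : I} (X : Module.End k (V i)) (x : Letter (lab d)) :
    x.1.1 ≠ i → ih i X (lb b x) = 0 := by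
  refine letter_cases (fun i' a => ?_) (fun i' a => ?_) x
  · intro hx
    have h1 : (LinearMap.single k (fun i => V i × Dual k (V i)) i' (b i' a, 0)) i = 0 :=
      Pi.single_eq_of_ne (Ne.symm hx) _
    rw [ih_apply, lb_lf, h1, map_zero, map_zero]
  · intro hx
    have h1 : (LinearMap.single k (fun i => V i × Dual k (V i)) i'
        (0, (b i').dualBasis (Fin.rev a))) i = 0 := Pi.single_eq_of_ne (Ne.symm hx) _
    rw [ih_apply, lb_lt, h1, map_zero, map_zero]

theorem lf_inj {i : I} {a a' : Fin (d i)} : lf i a = lf i a' ↔ a = a' := by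
  constructor
  · intro h
    exact eq_of_heq (Sigma.mk.inj_iff.mp h).2
  · intro h
    rw [h]

theorem lt_inj {i : I} {a a' : Fin (d i)} : lt i a = lt i a' ↔ a = a' := by
  constructor
  · intro h
    exact eq_of_heq (Sigma.mk.inj_iff.mp h).2
  · intro h
    rw [h]

theorem lf_ne_lt {i i' : I} {a : Fin (d i)} {a' : Fin (d i')} : ¬ lf i a = lt i' a' := by
  intro h
  have h1 := congrArg (fun z => z.1.2) h
  exact Bool.noConfusion h1

theorem lt_ne_lf {i i' : I} {a : Fin (d i)} {a' : Fin (d i')} : ¬ lt i a = lf i' a' :=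
  fun h => lf_ne_lt h.symm

theorem single_fst (i : I) (c : k) (v : V i) :
    LinearMap.single k (fun i => V i × Dual k (V i)) i (c • v, 0) =
      c • LinearMap.single k (fun i => V i × Dual k (V i)) i (v, 0) := by
  rw [← LinearMap.map_smul, Prod.smul_mk, smul_zero]

theorem single_snd (i : I) (c : k) (v : Dual k (V i)) :
    LinearMap.single k (fun i => V i × Dual k (V i)) i (0, c • v) =
      c • LinearMap.single k (fun i => V i × Dual k (V i)) i (0, v) := by
  rw [← LinearMap.map_smul, Prod.smul_mk, smul_zero]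

theorem single_neg (i : I) (v : Dual k (V i)) :
    LinearMap.single k (fun i => V i × Dual k (V i)) i (0, -v) =
      -LinearMap.single k (fun i => V i × Dual k (V i)) i (0, v) := by
  rw [← LinearMap.map_neg, Prod.neg_mk, neg_zero]

/-- The action of an elementary operator on the letters. -/
theorem ih_elem {i : I} {x y : Fin (d i)} {X : Module.End k (V i)}
    (hX : ∀ z, X (b i z) = if z = x then b i y else 0) (z : Letter (lab d)) :
    ih i X (lb b z) = (if z = lf i x then (1 : k) else 0) • lb b (lf i y) -
      (if z = lt i (Fin.rev y) then (1 : k) else 0) • lb b (lt i (Fin.rev x)) := by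
  classical
  refine letter_cases (fun i' a => ?_) (fun i' a => ?_) z
  · by_cases hi : i' = i
    · subst hi
      rw [ih_lf_same, hX, if_neg lf_ne_lt, zero_smul, sub_zero]
      by_cases h1 : a = x
      · rw [if_pos h1, h1, if_pos rfl, one_smul, lb_lf]
      · rw [if_neg h1, if_neg (fun h => h1 (lf_inj.1 h)), zero_smul]
        exact map_zero _
    · rw [ih_ne b X _ hi, if_neg, if_neg lf_ne_lt, zero_smul, zero_smul, sub_zero]
      intro h
      exact hi (congrArg (fun z => z.1.1) h)
  · by_cases hi : i' = i
    · subst hi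
      rw [ih_lt_same, dual_comp b hX, if_neg lt_ne_lf, zero_smul, zero_sub]
      by_cases h1 : Fin.rev a = y
      · rw [if_pos h1, ← h1, Fin.rev_rev, if_pos rfl, one_smul, lb_lt, Fin.rev_rev, single_neg]
      · rw [if_neg h1, if_neg, zero_smul, neg_zero, neg_zero]
        · exact map_zero _
        · intro h2
          apply h1
          rw [lt_inj.1 h2, Fin.rev_rev]
    · rw [ih_ne b X _ hi, if_neg lt_ne_lf, if_neg, zero_smul, zero_smul, sub_zero]
      intro h
      exact hi (congrArg (fun z => z.1.1) h)

theorem dual_diag {i : I} {c : Fin (d i) → k} {X : Module.End k (V i)}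
    (hX : ∀ z, X (b i z) = c z • b i z) (a : Fin (d i)) :
    X.dualMap ((b i).dualBasis a) = c a • (b i).dualBasis a := by
  refine (b i).ext fun z => ?_
  rw [LinearMap.dualMap_apply, hX, map_smul, LinearMap.smul_apply, Basis.coe_dualBasis,
    Basis.coord_apply, Basis.repr_self]
  by_cases h1 : a = z
  · rw [h1]
  · rw [Finsupp.single_eq_of_ne h1, smul_zero, smul_zero]

/-- The action of a diagonal operator on the letters. -/
theorem ih_diag {i : I} {c : Fin (d i) → k} {X : Module.End k (V i)}
    (hX : ∀ z, X (b i z) = c z • b i z) (z : Letter (lab d)) :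
    ih i X (lb b z) = (∑ x, c x * ((if z = lf i x then 1 else 0) -
      (if z = lt i (Fin.rev x) then 1 else 0))) • lb b z := by
  classical
  refine letter_cases (fun i' a => ?_) (fun i' a => ?_) z
  · by_cases hi : i' = i
    · subst hi
      rw [ih_lf_same, hX, Finset.sum_eq_single a]
      · rw [if_pos rfl, if_neg lf_ne_lt, sub_zero, mul_one, lb_lf, single_fst]
      · intro x _ hx
        rw [if_neg (fun h => hx (lf_inj.1 h).symm), if_neg lf_ne_lt, sub_zero, mul_zero]
      · intro h
        exact absurd (Finset.mem_univ _) h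
    · rw [ih_ne b X _ hi, Finset.sum_eq_zero, zero_smul]
      intro x _
      rw [if_neg, if_neg lf_ne_lt, sub_zero, mul_zero]
      intro h
      exact hi (congrArg (fun z => z.1.1) h)
  · by_cases hi : i' = i
    · subst hi
      rw [ih_lt_same, dual_diag b hX, Finset.sum_eq_single (Fin.rev a)]
      · rw [if_neg lt_ne_lf, Fin.rev_rev, if_pos rfl, zero_sub, mul_neg, mul_one, lb_lt,
          single_neg, single_snd]
        exact (neg_smul _ _).symm
      · intro x _ hx
        rw [if_neg lt_ne_lf, if_neg, sub_zero, mul_zero]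
        intro h
        apply hx
        rw [lt_inj.1 h, Fin.rev_rev]
      · intro h
        exact absurd (Finset.mem_univ _) h
    · rw [ih_ne b X _ hi, Finset.sum_eq_zero, zero_smul]
      intro x _
      rw [if_neg lt_ne_lf, if_neg, sub_zero, mul_zero]
      intro h
      exact hi (congrArg (fun z => z.1.1) h)

end

end Pool.Agent.Helper86.LT
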