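import Mathlib

/-!
# Representations, their duals, and products of evaluations and determinants: definitions
-/

set_option autoImplicit false

namespace Pool.Agent.Helper86.LT

open Module

/-- A finite dimensional representation `V` of `Γ` over `k`, with an integer `w` (the weight). -/
structure Piece (k : Type) [Field k] (Γ : Type) [Group Γ] where
  /-- the space -/
  V : Type
  [acV : AddCommGroup V]
  [mV : Module k V]
  [finV : FiniteDimensional k V]
  /-- the action -/
  ρ : Representation k Γ V
  /-- the weight -/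
  w : ℤ

attribute [instance] Piece.acV Piece.mV Piece.finV

variable {k : Type} [Field k] {Γ : Type} [Group Γ] {I : Type}

/-- The sum `H` of all `V i` and of all their dual spaces: the components of `x` are the vectors
`(x i).1` of `V i` and the linear forms `(x i).2` on `V i`. -/
abbrev Sum (P : I → Piece k Γ) : Type := ∀ i, (P i).V × Dual k (P i).V

/-- The action of `Γ` on `H`; the linear form `ξ` is mapped to the linear form `v ↦ ξ (g⁻¹ v)`. -/
def act (P : I → Piece k Γ) (g : Γ) (x : Sum P) : Sum P :=
  fun i => ((P i).ρ g (x i).1, (x i).2 ∘ₗ (P i).ρ g⁻¹)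

/-- `f` is a Tate class: it is equivariant under a subgroup of finite index. -/
def IsTateClass {M : Type} [AddCommGroup M] [Module k M] (P : I → Piece k Γ)
    (τ : Representation k Γ M) {N : ℕ} (f : MultilinearMap k (fun _ : Fin N => Sum P) M) : Prop :=
  ∃ Δ : Subgroup Γ, Δ.FiniteIndex ∧
    ∀ g ∈ Δ, ∀ x : Fin N → Sum P, f (fun l => act P g (x l)) = τ g (f x)

/-- The form `φ` in two variables is one of the evaluations `(v, ξ) ↦ ξ v` on `V i`. -/
def IsEvaluation (P : I → Piece k Γ) {m : ℕ}
    (φ : MultilinearMap k (fun _ : Fin m => Sum P) k) : Prop :=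
  ∃ (i : I) (e : Fin 2 ≃ Fin m), ∀ x, φ x = (x (e 1) i).2 (x (e 0) i).1

/-- The form `φ` in `dim (V i)` variables is a determinant form of one of the `V i`: an alternating
form in `dim (V i)` variables on `V i`. -/
def IsDeterminant (P : I → Piece k Γ) {m : ℕ}
    (φ : MultilinearMap k (fun _ : Fin m => Sum P) k) : Prop :=
  ∃ i : I, m = finrank k (P i).V ∧
    ∃ D : (P i).V [⋀^Fin m]→ₗ[k] k, ∀ x, φ x = D (fun l => (x l i).1)

/-- The form `φ` in `dim (V i)` variables is a determinant form of the dual of one of the `V i`. -/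
def IsDualDeterminant (P : I → Piece k Γ) {m : ℕ}
    (φ : MultilinearMap k (fun _ : Fin m => Sum P) k) : Prop :=
  ∃ i : I, m = finrank k (P i).V ∧
    ∃ D : (Dual k (P i).V) [⋀^Fin m]→ₗ[k] k, ∀ x, φ x = D (fun l => (x l i).2)

/-- `φ` is a product of evaluations and determinant forms; each variable occurs in exactly one of the
factors. -/
def IsProductOfForms (P : I → Piece k Γ) {N : ℕ}
    (φ : MultilinearMap k (fun _ : Fin N => Sum P) k) : Prop :=
  ∃ (A : Type) (_ : Fintype A) (m : A → ℕ) (p : (Σ a, Fin (m a)) ≃ Fin N)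
    (ψ : ∀ a, MultilinearMap k (fun _ : Fin (m a) => Sum P) k),
    (∀ a, IsEvaluation P (ψ a) ∨ IsDeterminant P (ψ a) ∨ IsDualDeterminant P (ψ a)) ∧
      ∀ x, φ x = ∏ a, ψ a (fun i => x (p ⟨a, i⟩))

/-- `f` is a Tate class which is the product of a form `ψ`, which is itself a product of evaluations
and determinant forms, and of a vector `u` of `M`. -/
def IsProductTimes {M : Type} [AddCommGroup M] [Module k M] (P : I → Piece k Γ)
    (τ : Representation k Γ M) {N : ℕ} (f : MultilinearMap k (fun _ : Fin N => Sum P) M) : Prop :=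
  (∃ (ψ : MultilinearMap k (fun _ : Fin N => Sum P) k) (u : M),
    IsProductOfForms P ψ ∧ ∀ x, f x = ψ x • u) ∧ IsTateClass P τ f

/-- The element `F` of `Γ` acts on `V` with eigenvalues which are pure of weight `m`:
`|a| ^ 2 = |χ F| ^ m`, where the absolute values are taken with the embedding `j` of `k` into the
field of complex numbers. -/
def IsPure (j : k →+* ℂ) (χ : Γ →* k) (F : Γ) {V : Type} [AddCommGroup V] [Module k V]
    (ρ : Representation k Γ V) (m : ℤ) : Prop :=
  ∀ a : k, Module.End.HasEigenvalue (ρ F) a → ‖j a‖ ^ 2 = ‖j (χ F)‖ ^ m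

/-- `γ` acts on `V` by a unipotent operator with only one Jordan block. -/
def OneJordanBlock (P : Piece k Γ) (γ : Γ) : Prop :=
  IsNilpotent (P.ρ γ - 1) ∧ (P.ρ γ - 1) ^ (finrank k P.V - 1) ≠ 0

/-- `V i` has a place of maximally unipotent monodromy where `M` and the other `V i'` have good
reduction: there are elements `γ` (a generator of the tame inertia group) and `φ` (a Frobenius element
of the place) and an integer `q ≥ 2` such that

* `γ` acts on `V i` by a unipotent operator with only one Jordan block, the relation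
  `φ γ = γ ^ q φ` of the tame inertia group holds on `V i`, and the determinant of `φ` on `V i` is
  pure of weight `w i * dim (V i)`;
* `γ` acts trivially on `M` and on the other `V i'`, and `φ` is pure of weight `m` on `M` and of
  weight `w i'` on the other `V i'`. -/
def MaximallyUnipotentPlace (P : I → Piece k Γ) {M : Type} [AddCommGroup M] [Module k M]
    (τ : Representation k Γ M) (χ : Γ →* k) (j : k →+* ℂ) (m : ℤ) (i : I) : Prop :=
  ∃ (γ φ : Γ) (q : ℕ), 2 ≤ q ∧ OneJordanBlock (P i) γ ∧
    (P i).ρ φ * (P i).ρ γ = (P i).ρ γ ^ q * (P i).ρ φ ∧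
    ‖j (LinearMap.det ((P i).ρ φ))‖ ^ 2 = ‖j (χ φ)‖ ^ ((P i).w * finrank k (P i).V) ∧
    (τ γ = 1 ∧ ∀ i', i' ≠ i → (P i').ρ γ = 1) ∧
    IsPure j χ φ τ m ∧ ∀ i', i' ≠ i → IsPure j χ φ (P i').ρ (P i').w

/-- `V` is not isomorphic to its dual up to a twist: there is no nonzero bilinear form on `V` which
every element of `Γ` multiplies by a scalar. -/
def NotSelfDual (P : Piece k Γ) : Prop :=
  ¬ ∃ B : P.V →ₗ[k] P.V →ₗ[k] k, B ≠ 0 ∧
    ∀ g : Γ, ∃ c : k, ∀ u v, B (P.ρ g u) (P.ρ g v) = c * B u v

end Pool.Agent.Helper86.LT
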