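import Pool.Agent.Helper86.LT.Forms
import Pool.Agent.Helper86.LT.Abs

/-!
# From the Lie algebras to the Tate classes
-/

set_option autoImplicit false
set_option linter.unusedSectionVars false

namespace Pool.Agent.Helper86.LT

open Module Pool.Agent.V1141.OF Pool.Agent.V1141.SO Pool.Agent.V1141.WT Q207.DB
open Pool.Agent.Y137.MV (IsEqv)

noncomputable section

variable {k : Type} [Field k] [CharZero k] {Γ : Type} [Group Γ] {I : Type} [Fintype I]
  [DecidableEq I] (P : I → Piece k Γ) {d : I → ℕ} (b : ∀ i, Basis (Fin (d i)) k (P i).V)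

omit [CharZero k] [Fintype I] [DecidableEq I] in
theorem det_char {W : Type} [AddCommGroup W] [Module k W] [FiniteDimensional k W] {m : ℕ}
    (hm : m = finrank k W) (D : W [⋀^Fin m]→ₗ[k] k) (g : Module.End k W) (v : Fin m → W) :
    D (fun l => g (v l)) = LinearMap.det g * D v := by
  subst hm
  let b : Basis (Fin (finrank k W)) k W := finBasis k W
  have h3 := b.det_comp g v
  have h4 : b.det (fun l => g (v l)) = b.det (g ∘ v) := rfl
  rw [D.eq_smul_basis_det b, AlternatingMap.smul_apply, AlternatingMap.smul_apply, h4, h3,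
    smul_eq_mul, smul_eq_mul]
  ring

omit [CharZero k] [Fintype I] [DecidableEq I] in
/-- A product of forms is multiplied by a character. -/
theorem prod_char {N : ℕ} {φ : MultilinearMap k (fun _ : Fin N => Sum P) k}
    (hφ : IsProductOfForms P φ) :
    ∃ c : Γ → k, ∀ (g : Γ) (x : Fin N → Sum P), φ (fun l => act P g (x l)) = c g * φ x := by
  classical
  obtain ⟨A, _, m, p, ψ, hψ, h⟩ := hφ
  have key : ∀ a, ∃ c : Γ → k, ∀ (g : Γ) (x : Fin (m a) → Sum P),
      ψ a (fun l => act P g (x l)) = c g * ψ a x := by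
    intro a
    rcases hψ a with ⟨i, e, h1⟩ | ⟨i, hm, D, h1⟩ | ⟨i, hm, D, h1⟩
    · refine ⟨fun _ => 1, fun g x => ?_⟩
      rw [h1, h1, one_mul]
      have h2 : (P i).ρ g⁻¹ * (P i).ρ g = 1 := by rw [← map_mul, inv_mul_cancel, map_one]
      exact congrArg (x (e 1) i).2 (LinearMap.congr_fun h2 (x (e 0) i).1)
    · refine ⟨fun g => LinearMap.det ((P i).ρ g), fun g x => ?_⟩
      rw [h1, h1]
      exact det_char hm D ((P i).ρ g) (fun l => (x l i).1)
    · refine ⟨fun g => LinearMap.det (((P i).ρ g⁻¹).dualMap), fun g x => ?_⟩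
      rw [h1, h1]
      have hm' : m a = finrank k (Dual k (P i).V) := by
        rw [Subspace.dual_finrank_eq, hm]
      exact det_char hm' D (((P i).ρ g⁻¹).dualMap) (fun l => (x l i).2)
  choose c hc using key
  refine ⟨fun g => ∏ a, c a g, fun g x => ?_⟩
  rw [h, h, ← Finset.prod_mul_distrib]
  exact Finset.prod_congr rfl fun a _ => hc a g _

/-- the equivalence of the positions -/
def pos {N p : ℕ} {L : Type} (m : L → ℕ) (e : (Σ j : L, Fin (m j)) ⊕ (Fin p × Fin 2) ≃ Fin N) :
    (Σ a : L ⊕ Fin p, Fin (Sum.elim m (fun _ => 2) a)) ≃ Fin N :=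
  (Equiv.sumSigmaDistrib (fun a : L ⊕ Fin p => Fin (Sum.elim m (fun _ => 2) a))).trans
    ((Equiv.sumCongr (Equiv.refl _) (Equiv.sigmaEquivProd (Fin p) (Fin 2))).trans e)

/-- A generator is the function of coordinates of a product of forms. -/
theorem gen_form (j : k →+* ℂ) {N p : ℕ} {L : Type} [Fintype L] (μ : L → I × Bool)
    (ν : Fin p → I × Bool)
    (e : (Σ q : L, Fin ((lab d).dim (μ q))) ⊕ (Fin p × Fin 2) ≃ Fin N) :
    ∃ (Ψ : MultilinearMap k (fun _ : Fin N => Sum P) k) (c : ℂ), IsProductOfForms P Ψ ∧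
      prodOf (Λ := lab d) sgl μ ν e =
        c • fun w => j (co (V := fun i => (P i).V) b Ψ w) := by
  classical
  let m : L ⊕ Fin p → ℕ := Sum.elim (fun q => d (μ q).1) (fun _ => 2)
  let p' : (Σ a, Fin (m a)) ≃ Fin N := pos (fun q => d (μ q).1) e
  let ψ : ∀ a : L ⊕ Fin p, MultilinearMap k (fun _ : Fin (m a) => Sum P) k := fun a =>
    match a with
    | Sum.inl q => detF (V := fun i => (P i).V) b (μ q)
    | Sum.inr q => pairF (V := fun i => (P i).V) (ν q)
  let Ψ : MultilinearMap k (fun _ : Fin N => Sum P) k := (sigmaProd ψ).domDomCongr p'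
  have hΨ : ∀ x, Ψ x = ∏ a, ψ a (fun i => x (p' ⟨a, i⟩)) := fun x => rfl
  refine ⟨Ψ, ∏ q, sq (ν q), ⟨L ⊕ Fin p, inferInstance, m, p', ψ, fun a => ?_, hΨ⟩, ?_⟩
  · rcases a with q | q
    · change IsEvaluation P (detF (V := fun i => (P i).V) b (μ q)) ∨
        IsDeterminant P (detF (V := fun i => (P i).V) b (μ q)) ∨
        IsDualDeterminant P (detF (V := fun i => (P i).V) b (μ q))
      right
      have hd : ∀ i, d i = finrank k (P i).V := fun i => by
        rw [finrank_eq_card_basis (b i), Fintype.card_fin]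
      generalize μ q = r
      obtain ⟨i, β⟩ := r
      cases β
      · exact Or.inl ⟨i, hd i, (b i).det, fun x => rfl⟩
      · exact Or.inr ⟨i, hd i, (rb b i).det, fun x => rfl⟩
    · exact Or.inl ⟨(ν q).1, if (ν q).2 then Equiv.swap 0 1 else Equiv.refl _, fun x => rfl⟩
  · funext w
    rw [Pi.smul_apply, smul_eq_mul]
    unfold prodOf co
    rw [hΨ, Fintype.prod_sum_type, map_mul, map_prod, map_prod, mul_left_comm,
      ← Finset.prod_mul_distrib]
    congr 1
    · refine Finset.prod_congr rfl fun q _ => ?_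
      exact (detF_value (V := fun i => (P i).V) b j (μ q) fun a => w (e (Sum.inl ⟨q, a⟩))).symm
    · refine Finset.prod_congr rfl fun q _ => ?_
      exact (pairF_value (V := fun i => (P i).V) b j (ν q) fun a => w (e (Sum.inr (q, a)))).symm

/-- **From the Lie algebras to the Tate classes.** -/
theorem main_of_lie {M : Type} [AddCommGroup M] [Module k M]
    [FiniteDimensional k M] (τ : Representation k Γ M) (j : k →+* ℂ)
    (hE : ∀ i, ∀ x y : Fin (d i), x ≠ y →
      ∃ X ∈ lieA (V := fun i => (P i).V) (fun i => (P i).ρ) τ i, ∀ z,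
        X (b i z) = if z = x then b i y else 0)
    (hD : ∀ i, ∀ x y : Fin (d i), x ≠ y →
      ∃ X ∈ lieA (V := fun i => (P i).V) (fun i => (P i).ρ) τ i, ∀ z,
        X (b i z) = (if z = x then b i z else 0) - (if z = y then b i z else 0))
    {N : ℕ} (f : MultilinearMap k (fun _ : Fin N => Sum P) M) (hf : IsTateClass P τ f) :
    f ∈ Submodule.span k {h | IsProductTimes P τ h} := by
  classical
  have hf' : IsEqv (RR (V := fun i => (P i).V) fun i => (P i).ρ) τ f := hf
  have h1 := abs_final τ (act P) {ψ | IsProductOfForms P ψ} (fun g hg => prod_char P hg) f hf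
    fun l => ?_
  · refine Submodule.span_mono ?_ h1
    rintro h ⟨⟨g, hg, u, hu⟩, hh⟩
    exact ⟨⟨g, u, hg, hu⟩, hh⟩
  -- the scalar components
  have h2 : l.compMultilinearMap f = ∑ t : Fin N → I × Bool, l.compMultilinearMap (pt t f) := by
    refine MultilinearMap.ext fun x => ?_
    rw [sum_apply]
    change l (f x) = ∑ t, l (pt t f x)
    rw [← map_sum, ← sum_apply, ← sum_pt]
  rw [h2]
  refine Submodule.sum_mem _ fun t _ => ?_
  let C : MultilinearMap k (fun _ : Fin N => Sum P) k →ₗ[k] ((Fin N → Letter (lab d)) → k) :=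
    { toFun := fun ψ => co (V := fun i => (P i).V) b ψ
      map_add' := fun _ _ => rfl
      map_smul' := fun _ _ => rfl }
  have hCinj : Function.Injective C := by
    intro ψ ψ' h
    refine Basis.ext_multilinear (fun _ => lb (V := fun i => (P i).V) b) fun K => ?_
    exact congrFun h K
  have h3 : C (l.compMultilinearMap (pt t f)) ∈
      Submodule.span k (C '' {ψ | IsProductOfForms P ψ}) := by
    refine descent j _ ?_
    rcases mem_detSpan (V := fun i => (P i).V) (ρ := fun i => (P i).ρ) (τ := τ) b j hE hD hf' l t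
      with h0 | ⟨m, hm⟩
    · have h4 : (fun w => j (C (l.compMultilinearMap (pt t f)) w)) = 0 := h0
      rw [h4]
      exact Submodule.zero_mem _
    · have h5 : DetSpan (Λ := lab d) sgl (fun q : Σ q : I × Bool, Fin (m q) => q.1) (Fin N) ≤
          Submodule.span ℂ {u : (Fin N → Letter (lab d)) → ℂ |
            ∃ s ∈ C '' {ψ | IsProductOfForms P ψ}, u = fun x => j (s x)} := by
        unfold DetSpan
        rw [Submodule.span_le]
        rintro _ ⟨p, ν, e, rfl⟩
        obtain ⟨Ψ, c, hΨ, h6⟩ := gen_form P b j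
          (fun q : Σ q : I × Bool, Fin (m q) => q.1) ν e
        change prodOf sgl (fun q : Σ q : I × Bool, Fin (m q) => q.1) ν e ∈ _
        rw [h6]
        exact Submodule.smul_mem _ _ (Submodule.subset_span ⟨C Ψ, ⟨Ψ, hΨ, rfl⟩, rfl⟩)
      exact h5 hm
  rw [← Submodule.map_span] at h3
  obtain ⟨ψ, hψ, hψ'⟩ := h3
  rw [← hCinj hψ']
  exact hψ

omit [CharZero k] [Fintype I] [DecidableEq I] in
/-- Combinations of Tate classes are Tate classes. -/
theorem tate_of_span {M : Type} [AddCommGroup M] [Module k M] (τ : Representation k Γ M) {N : ℕ}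
    {f : MultilinearMap k (fun _ : Fin N => Sum P) M}
    (hf : f ∈ Submodule.span k {h | IsProductTimes P τ h}) : IsTateClass P τ f := by
  induction hf using Submodule.span_induction with
  | mem x hx => exact hx.2
  | zero => exact ⟨⊤, inferInstance, fun g _ x => (map_zero (τ g)).symm⟩
  | add x y _ _ hx hy =>
    obtain ⟨Δ, hΔ, h1⟩ := hx
    obtain ⟨Δ', hΔ', h2⟩ := hy
    refine ⟨Δ ⊓ Δ', inferInstance, fun g hg z => ?_⟩
    change x _ + y _ = τ g (x z + y z)
    rw [h1 g hg.1, h2 g hg.2, map_add]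
  | smul a x _ hx =>
    obtain ⟨Δ, hΔ, h1⟩ := hx
    refine ⟨Δ, hΔ, fun g hg z => ?_⟩
    change a • x _ = τ g (a • x z)
    rw [h1 g hg, map_smul]

end

end Pool.Agent.Helper86.LT
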