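import Pool.Agent.Helper86.LT.Full
import Pool.Graph.R_pool_sql_team_seeded_5cf16337.K3h45.MU.Alg

/-!
# The invariant form
-/

set_option autoImplicit false
set_option linter.unusedSectionVars false

namespace Pool.Agent.Helper86.LT

open Module Finset Pool.Agent.Y126.JB Pool.Agent.Y126.MU
open Pool.Agent.K3h45.MU (skew_h skew_f skew_of_basis)

section

variable {K : Type*} [Field K] [CharZero K] {T : Type*} [AddCommGroup T] [Module K T]
  [FiniteDimensional K T] {e h f : End K T} {D : ℕ} {w : ℕ → T} (hp : Prin e h f D w)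

include hp in
/-- The invariant form of the triple. -/
theorem exists_form {b : Basis (Fin (D + 1)) K T} (hb : ∀ i, b i = w i) :
    ∃ ω : T →ₗ[K] T →ₗ[K] K, (∀ u v, ω (e u) v + ω u (e v) = 0) ∧
      (∀ u v, ω (h u) v + ω u (h v) = 0) ∧ (∀ u v, ω (f u) v + ω u (f v) = 0) ∧
      ∀ u, (∀ v, ω u v = 0) → u = 0 := by
  classical
  let ω : T →ₗ[K] T →ₗ[K] K := LinearMap.mk₂ K
    (fun u v => ∑ x : Fin (D + 1), (-1) ^ (x : ℕ) * (b.repr u x * b.repr v (Fin.rev x)))
    (fun u u' v => by
      rw [← Finset.sum_add_distrib]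
      refine Finset.sum_congr rfl fun x _ => ?_
      rw [map_add, Finsupp.add_apply]
      ring)
    (fun c u v => by
      rw [smul_eq_mul, Finset.mul_sum]
      refine Finset.sum_congr rfl fun x _ => ?_
      rw [map_smul, Finsupp.smul_apply, smul_eq_mul]
      ring)
    (fun u v v' => by
      rw [← Finset.sum_add_distrib]
      refine Finset.sum_congr rfl fun x _ => ?_
      rw [map_add, Finsupp.add_apply]
      ring)
    (fun c u v => by
      rw [smul_eq_mul, Finset.mul_sum]
      refine Finset.sum_congr rfl fun x _ => ?_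
      rw [map_smul, Finsupp.smul_apply, smul_eq_mul]
      ring)
  have hω : ∀ u v, ω u v =
      ∑ x : Fin (D + 1), (-1) ^ (x : ℕ) * (b.repr u x * b.repr v (Fin.rev x)) := fun u v => rfl
  have hw : ∀ i j, ω (w i) (w j) = if i + j = D then (-1) ^ i else 0 := by
    intro i j
    by_cases hi : i ≤ D
    · by_cases hj : j ≤ D
      · have e1 : w i = b ⟨i, by omega⟩ := by rw [hb]
        have e2 : w j = b ⟨j, by omega⟩ := by rw [hb]
        rw [hω, e1, e2, Finset.sum_eq_single (⟨i, by omega⟩ : Fin (D + 1))]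
        · rw [Basis.repr_self, Basis.repr_self, Finsupp.single_eq_same, one_mul]
          by_cases h1 : i + j = D
          · have h2 : Fin.rev (⟨i, by omega⟩ : Fin (D + 1)) = ⟨j, by omega⟩ := by
              rw [Fin.ext_iff, Fin.val_rev]
              simp only []
              omega
            rw [if_pos h1, h2, Finsupp.single_eq_same, mul_one]
          · have h2 : Fin.rev (⟨i, by omega⟩ : Fin (D + 1)) ≠ ⟨j, by omega⟩ := by
              rw [Ne, Fin.ext_iff, Fin.val_rev]
              simp only []
              omega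
            rw [if_neg h1, Finsupp.single_eq_of_ne h2, mul_zero]
        · intro x _ hx
          rw [Basis.repr_self, Finsupp.single_eq_of_ne hx, zero_mul, mul_zero]
        · intro h1
          exact absurd (Finset.mem_univ _) h1
      · rw [hp.zero (i := j) (by omega), map_zero, if_neg (by omega)]
    · rw [hp.zero (i := i) (by omega), map_zero, LinearMap.zero_apply, if_neg (by omega)]
  have he : ∀ u v, ω (e u) v + ω u (e v) = 0 := by
    refine skew_of_basis hp fun i j _ _ => ?_
    rw [hp.e_w, hp.e_w, hw, hw]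
    by_cases h1 : i + 1 + j = D
    · rw [if_pos h1, if_pos (by omega), pow_succ]
      ring
    · rw [if_neg h1, if_neg (by omega), add_zero]
  have hor : ∀ i j, i + j ≠ D → ω (w i) (w j) = 0 := fun i j hij => by rw [hw, if_neg hij]
  refine ⟨ω, he, skew_h hp hor, skew_f hp he hor, fun u hu => ?_⟩
  apply b.ext_elem
  intro x
  have h1 := hu (b (Fin.rev x))
  rw [hω, Finset.sum_eq_single x] at h1
  · rw [Basis.repr_self, Finsupp.single_eq_same, mul_one] at h1
    rw [map_zero, Finsupp.zero_apply]
    exact (mul_eq_zero.1 h1).resolve_left (pow_ne_zero _ (by norm_num))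
  · intro y _ hy
    rw [Basis.repr_self, Finsupp.single_eq_of_ne (fun h2 => hy (Fin.rev_injective h2)), mul_zero,
      mul_zero]
  · intro h2
    exact absurd (Finset.mem_univ _) h2

include hp in
/-- The invariant form is unique. -/
theorem unique_form {ω ω' : T →ₗ[K] T →ₗ[K] K}
    (he : ∀ u v, ω (e u) v + ω u (e v) = 0) (hh : ∀ u v, ω (h u) v + ω u (h v) = 0)
    (he' : ∀ u v, ω' (e u) v + ω' u (e v) = 0) (hh' : ∀ u v, ω' (h u) v + ω' u (h v) = 0)
    (u v : T) : ω (w 0) (w D) * ω' u v = ω' (w 0) (w D) * ω u v := by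
  have key : ∀ i j, i ≤ D → ω (w 0) (w D) * ω' (w i) (w j) = ω' (w 0) (w D) * ω (w i) (w j) := by
    intro i j hi
    by_cases hij : i + j = D
    · have h1 := om_pow he i (w 0) (w j)
      have h2 := om_pow he' i (w 0) (w j)
      rw [hp.pow, hp.pow, zero_add, show j + i = D by omega] at h1 h2
      rw [h1, h2]
      ring
    · rw [hp.orth hh hij, hp.orth hh' hij, mul_zero, mul_zero]
  obtain ⟨c, rfl⟩ := hp.span u
  obtain ⟨d, rfl⟩ := hp.span v
  simp only [map_sum, map_smul, LinearMap.sum_apply, LinearMap.smul_apply, smul_eq_mul,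
    Finset.mul_sum]
  refine Finset.sum_congr rfl fun i hi => Finset.sum_congr rfl fun j hj => ?_
  rw [mem_range] at hi hj
  linear_combination c j * d i * key j i (by omega)

/-- The characteristic polynomial of a similitude. -/
theorem charpoly_sim {ω : T →ₗ[K] T →ₗ[K] K} (hnd : ∀ u, (∀ v, ω u v = 0) → u = 0)
    {g g' : End K T} (hgg : g * g' = 1) {c : K} (hc : ∀ u v, ω (g u) (g v) = c * ω u v) :
    g.charpoly = (c • g').charpoly := by
  classical
  let b := Module.finBasis K T
  let J : Matrix (Fin (finrank K T)) (Fin (finrank K T)) K := Matrix.of fun x y => ω (b x) (b y)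
  have hJ : J.det ≠ 0 := by
    intro h0
    obtain ⟨v, hv0, hv⟩ := Matrix.exists_vecMul_eq_zero_iff.2 h0
    apply hv0
    have h1 : ∑ x, v x • b x = 0 := by
      refine hnd _ fun y => ?_
      have h2 : ω (∑ x, v x • b x) = 0 := by
        refine b.ext fun y => ?_
        have h3 : ∑ i, v i * J i y = 0 := by
          have h4 := congrFun hv y
          rwa [Matrix.vecMul, dotProduct, Pi.zero_apply] at h4
        rw [map_sum, LinearMap.sum_apply, LinearMap.zero_apply, ← h3]
        refine Finset.sum_congr rfl fun x _ => ?_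
        rw [map_smul, LinearMap.smul_apply, smul_eq_mul]
        rfl
      rw [h2, LinearMap.zero_apply]
    funext x
    exact Fintype.linearIndependent_iff.1 b.linearIndependent v h1 x
  have hA : ∀ (X : End K T) (y : Fin (finrank K T)),
      X (b y) = ∑ z, LinearMap.toMatrix b b X z y • b z := by
    intro X y
    rw [← b.sum_repr (X (b y))]
    refine Finset.sum_congr rfl fun z _ => ?_
    rw [LinearMap.toMatrix_apply]
  have hadj : ∀ u v, ω (g u) v = c * ω u (g' v) := by
    intro u v
    rw [← hc, ← Module.End.mul_apply, hgg, Module.End.one_apply]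
  have h1 : (LinearMap.toMatrix b b g).transpose * J =
      J * LinearMap.toMatrix b b (c • g') := by
    ext x y
    rw [Matrix.mul_apply, Matrix.mul_apply]
    have e1 : ω (g (b x)) (b y) = ∑ z, LinearMap.toMatrix b b g z x * J z y := by
      conv_lhs => rw [hA g x]
      rw [map_sum, LinearMap.sum_apply]
      refine Finset.sum_congr rfl fun z _ => ?_
      rw [map_smul, LinearMap.smul_apply, smul_eq_mul]
      rfl
    have e2 : ω (b x) ((c • g') (b y)) = ∑ z, J x z * LinearMap.toMatrix b b (c • g') z y := by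
      conv_lhs => rw [hA (c • g') y]
      rw [map_sum]
      refine Finset.sum_congr rfl fun z _ => ?_
      rw [map_smul, smul_eq_mul, mul_comm]
      rfl
    rw [← e2, LinearMap.smul_apply, map_smul, smul_eq_mul, ← hadj, e1]
    rfl
  have hJu : IsUnit J := (Matrix.isUnit_iff_isUnit_det J).2 (isUnit_iff_ne_zero.2 hJ)
  obtain ⟨U, hU⟩ := hJu
  rw [← LinearMap.charpoly_toMatrix g b, ← LinearMap.charpoly_toMatrix (c • g') b,
    ← Matrix.charpoly_transpose (LinearMap.toMatrix b b g)]
  have h2 : LinearMap.toMatrix b b (c • g') =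
      (↑U⁻¹ : Matrix _ _ K) * (LinearMap.toMatrix b b g).transpose * (U : Matrix _ _ K) := by
    rw [mul_assoc, hU, h1, ← hU, ← mul_assoc, Units.inv_mul, one_mul]
  rw [h2, Matrix.coe_units_inv, Matrix.charpoly_units_conj']

include hp in
/-- If the Lie algebra consists of infinitesimal similitudes, then the elements which normalize it are
similitudes. -/
theorem sim_all {ω : T →ₗ[K] T →ₗ[K] K}
    (he : ∀ u v, ω (e u) v + ω u (e v) = 0) (hh : ∀ u v, ω (h u) v + ω u (h v) = 0)
    (hnd : ∀ u, (∀ v, ω u v = 0) → u = 0)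
    {L : Submodule K (End K T)} (heL : e ∈ L) (hhL : h ∈ L) (hfL : f ∈ L)
    {g g' : End K T} (hgg : g * g' = 1) (hconj : ∀ X ∈ L, g * X * g' ∈ L)
    (hle : L ≤ Sim ω) : ∃ c : K, ∀ u v, ω (g u) (g v) = c * ω u v := by
  have hgg' : g' * g = 1 := mul_eq_one_comm.1 hgg
  let ω' : T →ₗ[K] T →ₗ[K] K := ω.compl₁₂ g g
  have hω' : ∀ u v, ω' u v = ω (g u) (g v) := fun u v => rfl
  have hinv : ∀ x, g' (g x) = x := fun x => by
    rw [← Module.End.mul_apply, hgg', Module.End.one_apply]
  have hS : ∀ X ∈ L, X ∈ Sim ω' := by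
    intro X hX
    obtain ⟨c, hc⟩ := hle (hconj X hX)
    refine ⟨c, fun u v => ?_⟩
    have h1 := hc (g u) (g v)
    rw [Module.End.mul_apply, Module.End.mul_apply, Module.End.mul_apply, Module.End.mul_apply,
      hinv, hinv] at h1
    rw [hω', hω', hω']
    exact h1
  have he' : ∀ u v, ω' (e u) v + ω' u (e v) = 0 := by
    intro u v
    have h1 := sim_br (hS h hhL) (hS e heL) u v
    have h2 := hp.he
    rw [ad_apply] at h2
    rw [h2, LinearMap.smul_apply, LinearMap.smul_apply, map_smul, map_smul, LinearMap.smul_apply,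
      smul_eq_mul, smul_eq_mul, ← mul_add] at h1
    exact (mul_eq_zero.1 h1).resolve_left two_ne_zero
  have hh' : ∀ u v, ω' (h u) v + ω' u (h v) = 0 := by
    intro u v
    have h1 := sim_br (hS e heL) (hS f hfL) u v
    have h2 := hp.ef
    rw [ad_apply] at h2
    rw [← h2] at h1
    exact h1
  have hpair := hp.pair he hh hnd
  refine ⟨ω' (w 0) (w D) / ω (w 0) (w D), fun u v => ?_⟩
  have h1 := unique_form hp he hh he' hh' u v
  rw [← hω', div_mul_eq_mul_div, eq_div_iff hpair, ← h1]
  ring

include hp in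
/-- A Lie algebra which is stable under a conjugation by an element which is not selfdual does not
consist of similitudes. -/
theorem not_sim {ω : T →ₗ[K] T →ₗ[K] K}
    (he : ∀ u v, ω (e u) v + ω u (e v) = 0) (hh : ∀ u v, ω (h u) v + ω u (h v) = 0)
    (hnd : ∀ u, (∀ v, ω u v = 0) → u = 0)
    {L : Submodule K (End K T)} (heL : e ∈ L) (hhL : h ∈ L) (hfL : f ∈ L)
    {g g' : End K T} (hgg : g * g' = 1) (hconj : ∀ X ∈ L, g * X * g' ∈ L)
    (hne : ∀ c : K, g.charpoly ≠ (c • g').charpoly) : ¬ L ≤ Sim ω := by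
  intro hle
  obtain ⟨c, hc⟩ := sim_all hp he hh hnd heL hhL hfL hgg hconj hle
  exact hne c (charpoly_sim hnd hgg hc)

end

end Pool.Agent.Helper86.LT
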