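import Pool.Agent.Helper86.LT.Pt
import Pool.Agent.Helper86.LT.Defs
import Pool.Graph.R_pool_sql_team_seeded_843ab51a.V1141.SO.Det

/-!
# Products of determinants and pairings as multilinear forms
-/

set_option autoImplicit false
set_option linter.unusedSectionVars false

namespace Pool.Agent.Helper86.LT

open Module Pool.Agent.V1141.OF Pool.Agent.V1141.SO Q207.DB
open Pool.Agent.H204R3.CM Pool.Agent.H204R3.SP Pool.Agent.H204R3.GP
open Pool.Agent.Y137.MV (IsEqv)

noncomputable section

section gen

variable {k : Type} [Field k] [CharZero k] {I : Type} [Fintype I] [DecidableEq I] {V : I → Type}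
  [∀ i, AddCommGroup (V i)] [∀ i, Module k (V i)]
  {d : I → ℕ} (b : ∀ i, Basis (Fin (d i)) k (V i))

/-- the dual basis in the opposite order -/
def rb (i : I) : Basis (Fin (d i)) k (Dual k (V i)) := (b i).dualBasis.reindex Fin.revPerm

theorem rb_apply (i : I) (a : Fin (d i)) : rb b i a = (b i).dualBasis (Fin.rev a) := by
  unfold rb
  rw [Basis.reindex_apply]
  rfl

theorem lb_fst (z : Letter (lab d)) (i : I) (c : Fin (d i)) :
    (b i).repr (lb b z i).1 c = if z = lf i c then 1 else 0 := by
  refine letter_cases (fun i' a => ?_) (fun i' a => ?_) z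
  · by_cases hi : i' = i
    · subst hi
      have h1 : lb b (lf i' a) i' = (b i' a, 0) := by
        rw [lb_lf]
        exact Pi.single_eq_same _ _
      rw [h1, Basis.repr_self, Finsupp.single_apply]
      simp only [lf_inj]
    · have h1 : lb b (lf i' a) i = 0 := by
        rw [lb_lf]
        exact Pi.single_eq_of_ne (Ne.symm hi) _
      rw [h1, Prod.fst_zero, map_zero, Finsupp.zero_apply,
        if_neg (fun h => hi (congrArg (fun z => z.1.1) h))]
  · rw [if_neg lt_ne_lf]
    by_cases hi : i' = i
    · subst hi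
      have h1 : lb b (lt i' a) i' = (0, (b i').dualBasis (Fin.rev a)) := by
        rw [lb_lt]
        exact Pi.single_eq_same _ _
      rw [h1, map_zero, Finsupp.zero_apply]
    · have h1 : lb b (lt i' a) i = 0 := by
        rw [lb_lt]
        exact Pi.single_eq_of_ne (Ne.symm hi) _
      rw [h1, Prod.fst_zero, map_zero, Finsupp.zero_apply]

theorem lb_snd (z : Letter (lab d)) (i : I) (c : Fin (d i)) :
    (rb b i).repr (lb b z i).2 c = if z = lt i c then 1 else 0 := by
  refine letter_cases (fun i' a => ?_) (fun i' a => ?_) z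
  · rw [if_neg lf_ne_lt]
    by_cases hi : i' = i
    · subst hi
      have h1 : lb b (lf i' a) i' = (b i' a, 0) := by
        rw [lb_lf]
        exact Pi.single_eq_same _ _
      rw [h1, map_zero, Finsupp.zero_apply]
    · have h1 : lb b (lf i' a) i = 0 := by
        rw [lb_lf]
        exact Pi.single_eq_of_ne (Ne.symm hi) _
      rw [h1, Prod.snd_zero, map_zero, Finsupp.zero_apply]
  · by_cases hi : i' = i
    · subst hi
      have h1 : lb b (lt i' a) i' = (0, (b i').dualBasis (Fin.rev a)) := by
        rw [lb_lt]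
        exact Pi.single_eq_same _ _
      rw [h1, ← rb_apply, Basis.repr_self, Finsupp.single_apply]
      simp only [lt_inj]
    · have h1 : lb b (lt i' a) i = 0 := by
        rw [lb_lt]
        exact Pi.single_eq_of_ne (Ne.symm hi) _
      rw [h1, Prod.snd_zero, map_zero, Finsupp.zero_apply,
        if_neg (fun h => hi (congrArg (fun z => z.1.1) h))]

/-- the determinant forms -/
def detF (q : I × Bool) : MultilinearMap k (fun _ : Fin (d q.1) => HH k V) k :=
  match q with
  | (i, false) => (b i).det.toMultilinearMap.compLinearMap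
      (fun _ => (LinearMap.fst k (V i) (Dual k (V i))).comp (LinearMap.proj i))
  | (i, true) => (rb b i).det.toMultilinearMap.compLinearMap
      (fun _ => (LinearMap.snd k (V i) (Dual k (V i))).comp (LinearMap.proj i))

/-- the pairings -/
def pairF (q : I × Bool) : MultilinearMap k (fun _ : Fin 2 => HH k V) k :=
  pairM (V := fun i => V i × Dual k (V i)) q.1
    ((LinearMap.mk₂ k (fun (x y : V q.1 × Dual k (V q.1)) => y.2 x.1)
      (fun _ _ _ => map_add _ _ _) (fun _ _ _ => map_smul _ _ _)
      (fun _ _ _ => rfl) (fun _ _ _ => rfl)))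
    (if q.2 then Equiv.swap 0 1 else Equiv.refl _)

theorem detF_value (j : k →+* ℂ) (q : I × Bool) (w : Fin ((lab d).dim q) → Letter (lab d)) :
    j (detF b q (fun a => lb b (w a))) = detOf q w := by
  obtain ⟨i, β⟩ := q
  cases β
  · change j ((b i).det (fun a : Fin (d i) => (lb b (w a) i).1)) = _
    rw [Basis.det_apply, ← Matrix.det_transpose, RingHom.map_det]
    unfold detOf
    congr 1
    ext a c
    rw [RingHom.mapMatrix_apply, Matrix.map_apply, Matrix.transpose_apply, Basis.toMatrix_apply,
      lb_fst, j_ite]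
    rfl
  · change j ((rb b i).det (fun a : Fin (d i) => (lb b (w a) i).2)) = _
    rw [Basis.det_apply, ← Matrix.det_transpose, RingHom.map_det]
    unfold detOf
    congr 1
    ext a c
    rw [RingHom.mapMatrix_apply, Matrix.map_apply, Matrix.transpose_apply, Basis.toMatrix_apply,
      lb_snd, j_ite]
    rfl

/-- the value of a form of the dual space on the basis -/
theorem eval_lb (i : I) (z z' : Letter (lab d)) :
    (lb b z' i).2 (lb b z i).1 = if z.1 = (i, false) ∧ z' = dual z then (1 : k) else 0 := by
  refine letter_cases (fun i₁ a => ?_) (fun i₁ a => ?_) z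
  · by_cases hi : i₁ = i
    · subst hi
      have h1 : lb b (lf i₁ a) i₁ = (b i₁ a, 0) := by
        rw [lb_lf]
        exact Pi.single_eq_same _ _
      rw [h1, dual_lf]
      have h2 : ∀ ξ : Dual k (V i₁), ξ (b i₁ a) = (rb b i₁).repr ξ (Fin.rev a) := by
        intro ξ
        unfold rb
        rw [Basis.repr_reindex, Finsupp.mapDomain_equiv_apply, Basis.dualBasis_repr]
        congr 2
        exact (Fin.rev_rev a).symm
      change (lb b z' i₁).2 (b i₁ a) = _
      rw [h2, lb_snd]
      by_cases h3 : z' = lt i₁ (Fin.rev a)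
      · rw [if_pos h3, if_pos ⟨rfl, h3⟩]
      · rw [if_neg h3, if_neg (fun h => h3 h.2)]
    · have h1 : lb b (lf i₁ a) i = 0 := by
        rw [lb_lf]
        exact Pi.single_eq_of_ne (Ne.symm hi) _
      rw [h1, Prod.fst_zero, map_zero, if_neg (fun h => hi (congrArg Prod.fst h.1))]
  · have h1 : (lb b (lt i₁ a) i).1 = 0 := by
      by_cases hi : i₁ = i
      · subst hi
        have h1 : lb b (lt i₁ a) i₁ = (0, (b i₁).dualBasis (Fin.rev a)) := by
          rw [lb_lt]
          exact Pi.single_eq_same _ _
        rw [h1]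
      · have h1 : lb b (lt i₁ a) i = 0 := by
          rw [lb_lt]
          exact Pi.single_eq_of_ne (Ne.symm hi) _
        rw [h1, Prod.fst_zero]
    rw [h1, map_zero, if_neg (fun h => Bool.noConfusion (congrArg Prod.snd h.1))]

/-- the sign of a label -/
def sq (q : I × Bool) : ℂ := if q.2 then -1 else 1

theorem pairF_value (j : k →+* ℂ) (q : I × Bool) (w : Fin 2 → Letter (lab d)) :
    sq q * j (pairF q (fun a => lb b (w a))) = pairOf sgl q (w 0) (w 1) := by
  obtain ⟨i, β⟩ := q
  cases β
  · have h1 : pairF (i, false) (fun a => lb b (w a)) = (lb b (w 1) i).2 (lb b (w 0) i).1 := rfl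
    rw [h1, eval_lb, j_ite]
    unfold pairOf sq
    rw [if_neg (by simp), one_mul]
    by_cases h2 : (w 0).1 = (i, false)
    · rw [if_pos h2]
      have h3 : sgl (w 0) = 1 := by
        unfold sgl
        rw [h2, if_neg (by simp)]
      rw [h3]
      by_cases h4 : w 1 = dual (w 0)
      · rw [if_pos h4, if_pos ⟨h2, h4⟩]
      · rw [if_neg h4, if_neg (fun h => h4 h.2)]
    · rw [if_neg h2, if_neg (fun h => h2 h.1)]
  · have h1 : pairF (i, true) (fun a => lb b (w a)) = (lb b (w 0) i).2 (lb b (w 1) i).1 := rfl
    rw [h1, eval_lb, j_ite]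
    unfold pairOf sq
    rw [if_pos (by simp)]
    have h5 : ((w 1).1 = (i, false) ∧ w 0 = dual (w 1)) ↔
        ((w 0).1 = (i, true) ∧ w 1 = dual (w 0)) := by
      constructor
      · rintro ⟨h6, h7⟩
        refine ⟨?_, by rw [h7, dual_dual]⟩
        rw [h7, dual_fst, h6]
        rfl
      · rintro ⟨h6, h7⟩
        refine ⟨?_, by rw [h7, dual_dual]⟩
        rw [h7, dual_fst, h6]
        rfl
    by_cases h2 : (w 0).1 = (i, true)
    · rw [if_pos h2]
      have h3 : sgl (w 0) = -1 := by
        unfold sgl
        rw [h2, if_pos (by simp)]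
      rw [h3]
      by_cases h4 : w 1 = dual (w 0)
      · rw [if_pos h4, if_pos (h5.2 ⟨h2, h4⟩), mul_one]
      · rw [if_neg h4, if_neg (fun h => h4 (h5.1 h).2), mul_zero]
    · rw [if_neg h2, if_neg (fun h => h2 (h5.1 h).1), mul_zero]

end gen

end

end Pool.Agent.Helper86.LT
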