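import Pool.Agent.Helper86.LT.Top

/-!
# All elementary operators
-/

set_option autoImplicit false
set_option linter.unusedSectionVars false

namespace Pool.Agent.Helper86.LT

open Module Finset Pool.Agent.Y126.JB Pool.Agent.Y126.MU

/-- The operator which maps `w i` to `w j`, and the other basis vectors to zero, is in `L`. -/
def Has {K : Type*} [Field K] {T : Type*} [AddCommGroup T] [Module K T]
    (L : Submodule K (End K T)) (D : ℕ) (w : ℕ → T) (i j : ℕ) : Prop :=
  ∃ X ∈ L, ∀ l, l ≤ D → X (w l) = if l = i then w j else 0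

section

variable {K : Type*} [Field K] [CharZero K] {T : Type*} [AddCommGroup T] [Module K T]
  [FiniteDimensional K T] {e h f : End K T} {D : ℕ} {w : ℕ → T} (hp : Prin e h f D w)
  {ω : T →ₗ[K] T →ₗ[K] K}
  (he : ∀ u v, ω (e u) v + ω u (e v) = 0)
  (hh : ∀ u v, ω (h u) v + ω u (h v) = 0)
  (hf : ∀ u v, ω (f u) v + ω u (f v) = 0)
  (hnd : ∀ u, (∀ v, ω u v = 0) → u = 0)
  {L : Submodule K (End K T)} (hbr : ∀ Y ∈ L, ∀ Z ∈ L, Y * Z - Z * Y ∈ L)

include hbr in
theorem has_comp {i j m : ℕ} (hj : j ≤ D) (hm : m ≤ D) (h1 : Has L D w i j) (h2 : Has L D w j m)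
    (him : i ≠ m) : Has L D w i m := by
  obtain ⟨X, hX, hXw⟩ := h1
  obtain ⟨Y, hY, hYw⟩ := h2
  refine ⟨_, hbr Y hY X hX, fun l hl => ?_⟩
  rw [LinearMap.sub_apply, Module.End.mul_apply, Module.End.mul_apply, hXw l hl, hYw l hl]
  have h3 : X (if l = j then w m else 0) = 0 := by
    by_cases hlj : l = j
    · rw [if_pos hlj, hXw m hm, if_neg (Ne.symm him)]
    · rw [if_neg hlj, map_zero]
  rw [h3, sub_zero]
  by_cases hli : l = i
  · rw [if_pos hli, if_pos hli, hYw j hj, if_pos rfl]
  · rw [if_neg hli, if_neg hli, map_zero]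

include hp hbr in
theorem top_has (hD : 2 ≤ D) (hfL : f ∈ L) (h1 : e ^ D ∈ L) (h2 : e ^ (D - 1) ∈ L) :
    Has L D w 0 D ∧ Has L D w 0 (D - 1) ∧ Has L D w 1 D := by
  obtain ⟨k, rfl⟩ : ∃ k, D = k + 1 := ⟨D - 1, by omega⟩
  rw [Nat.add_sub_cancel] at h2 ⊢
  obtain ⟨Y, hY⟩ : ∃ Y, Y = ad K f (e ^ (k + 1)) := ⟨_, rfl⟩
  have hYL : Y ∈ L := by
    rw [hY]
    exact hbr f hfL _ h1
  have hk1 : ((k : K) + 1) ≠ 0 := Nat.cast_add_one_ne_zero k
  have hY0 : Y (w 0) = ((k : K) + 1) • w k := by
    rw [hY, ad_apply, LinearMap.sub_apply, Module.End.mul_apply, Module.End.mul_apply, hp.pow,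
      hp.f_zero, map_zero, sub_zero, zero_add, hp.f_w]
    congr 1
    push_cast
    ring
  have hY1 : Y (w 1) = (-((k : K) + 1)) • w (k + 1) := by
    rw [hY, ad_apply, LinearMap.sub_apply, Module.End.mul_apply, Module.End.mul_apply, hp.pow,
      hp.zero (i := 1 + (k + 1)) (by omega), map_zero, zero_sub, show (1 : ℕ) = 0 + 1 from rfl,
      hp.f_w, map_smul, hp.pow, ← neg_smul, show 0 + (k + (0 + 1)) = k + 1 by omega]
    congr 1
    push_cast
    ring
  have hY2 : ∀ l, Y (w (l + 2)) = 0 := by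
    intro l
    rw [hY, ad_apply, LinearMap.sub_apply, Module.End.mul_apply, Module.End.mul_apply, hp.pow,
      hp.zero (i := l + 2 + (k + 1)) (by omega), map_zero, zero_sub, hp.f_w, map_smul, hp.pow,
      hp.zero (i := l + 1 + (k + 1)) (by omega), smul_zero, neg_zero]
  refine ⟨⟨_, h1, fun l _ => ?_⟩,
    ⟨(1 / 2 : K) • (e ^ k + (1 / ((k : K) + 1)) • Y),
      L.smul_mem _ (L.add_mem h2 (L.smul_mem _ hYL)), fun l _ => ?_⟩,
    ⟨(1 / 2 : K) • (e ^ k - (1 / ((k : K) + 1)) • Y),
      L.smul_mem _ (L.sub_mem h2 (L.smul_mem _ hYL)), fun l _ => ?_⟩⟩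
  · rw [hp.pow]
    by_cases hl : l = 0
    · rw [if_pos hl, hl, zero_add]
    · rw [if_neg hl, hp.zero (by omega)]
  · rw [LinearMap.smul_apply, LinearMap.add_apply, LinearMap.smul_apply, hp.pow]
    rcases l with _ | _ | l
    · rw [if_pos rfl, hY0, zero_add, smul_smul, one_div_mul_cancel hk1]
      module
    · rw [if_neg (by omega), zero_add, hY1, smul_smul, mul_neg, one_div_mul_cancel hk1,
        add_comm 1 k]
      module
    · rw [if_neg (by omega), hY2, hp.zero (by omega), smul_zero, add_zero, smul_zero]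
  · rw [LinearMap.smul_apply, LinearMap.sub_apply, LinearMap.smul_apply, hp.pow]
    rcases l with _ | _ | l
    · rw [if_neg (by omega), hY0, zero_add, smul_smul, one_div_mul_cancel hk1]
      module
    · rw [if_pos (by omega), zero_add, hY1, smul_smul, mul_neg, one_div_mul_cancel hk1,
        add_comm 1 k]
      module
    · rw [if_neg (by omega), hY2, hp.zero (by omega), smul_zero, sub_zero, smul_zero]

include hp in
theorem has_rev {i j : ℕ} (hi : i ≤ D) (hj : j ≤ D)
    (h1 : Has L D (fun i => (f ^ i) (w D)) i j) : Has L D w (D - i) (D - j) := by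
  obtain ⟨X, hX, hXw⟩ := h1
  obtain ⟨ci, hci, hi'⟩ := hp.f_pow hi le_rfl
  obtain ⟨cj, hcj, hj'⟩ := hp.f_pow hj le_rfl
  refine ⟨(ci / cj) • X, L.smul_mem _ hX, fun l hl => ?_⟩
  obtain ⟨cl, hcl, hl'⟩ := hp.f_pow (j := D - l) (k := D) (by omega) le_rfl
  have h2 := hXw (D - l) (by omega)
  simp only [] at h2
  rw [hl', show D - (D - l) = l by omega, map_smul] at h2
  have h3 : X (w l) = cl⁻¹ • (if D - l = i then (f ^ j) (w D) else 0) := by
    rw [← h2, smul_smul, inv_mul_cancel₀ hcl, one_smul]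
  rw [LinearMap.smul_apply, h3]
  by_cases hli : D - l = i
  · have h4 : cl = ci := by
      rw [← hli] at hi'
      have h5 := hl'.symm.trans hi'
      exact coef hp (by omega) h5
    rw [if_pos hli, if_pos (by omega), hj', h4, smul_smul, smul_smul]
    have h5 : ci / cj * ci⁻¹ * cj = 1 := by field_simp
    rw [h5, one_smul]
  · rw [if_neg hli, if_neg (by omega), smul_zero, smul_zero]

include hp hbr in
theorem full_aux (heL : e ∈ L) (hfL : f ∈ L) (hD : 2 ≤ D) (h0D : Has L D w 0 D)
    (hD0 : Has L D w D 0) (h1D : Has L D w 1 D) (hD1 : Has L D w D 1) {i j : ℕ} (hi : i ≤ D)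
    (hj : j ≤ D) (hij : i ≠ j) : Has L D w i j := by
  have h01 : Has L D w 0 1 := has_comp hbr le_rfl (by omega) h0D hD1 zero_ne_one
  have h10 : Has L D w 1 0 := has_comp hbr le_rfl (by omega) h1D hD0 one_ne_zero
  have hdown : ∀ c j, j + c = D → 1 ≤ j → Has L D w 0 j := by
    intro c
    induction c with
    | zero =>
      intro j hj _
      rw [add_zero] at hj
      rw [hj]
      exact h0D
    | succ c ih =>
      intro j hj h1
      have h2 := ih (j + 1) (by omega) (by omega)
      have h3 : Has L D w 1 (j + 1) := has_comp hbr (by omega) (by omega) h10 h2 (by omega)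
      obtain ⟨X, hX, hXw⟩ := h2
      obtain ⟨Z, hZ, hZw⟩ := h3
      have hc : ((j : K) + 1) * ((D : K) - j) ≠ 0 := by
        refine mul_ne_zero (Nat.cast_add_one_ne_zero j) ?_
        rw [sub_ne_zero]
        intro h4
        have h5 : D = j := Nat.cast_injective h4
        omega
      refine ⟨(((j : K) + 1) * ((D : K) - j))⁻¹ • ((f * X - X * f) + (D : K) • Z),
        L.smul_mem _ (L.add_mem (hbr f hfL X hX) (L.smul_mem _ hZ)), fun l hl => ?_⟩
      rw [LinearMap.smul_apply, LinearMap.add_apply, LinearMap.sub_apply, LinearMap.smul_apply,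
        Module.End.mul_apply, Module.End.mul_apply, hXw l hl, hZw l hl]
      rcases l with _ | _ | l
      · rw [if_pos rfl, if_neg (by omega), if_pos rfl, hp.f_zero, hp.f_w, map_zero, sub_zero,
          smul_zero, add_zero, smul_smul, inv_mul_cancel₀ hc, one_smul]
      · rw [if_neg (by omega), if_pos (by omega), if_neg (by omega), hp.f_w, map_smul,
          hXw 0 (Nat.zero_le D), if_pos rfl, map_zero, zero_sub]
        push_cast
        module
      · rw [if_neg (by omega), if_neg (by omega), if_neg (by omega), hp.f_w, map_smul,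
          hXw (l + 1) (by omega), if_neg (by omega), map_zero, smul_zero, smul_zero, sub_zero,
          add_zero, smul_zero]
  have hup : ∀ c j, j + c = D → 1 ≤ j → Has L D w j 0 := by
    intro c
    induction c with
    | zero =>
      intro j hj _
      rw [add_zero] at hj
      rw [hj]
      exact hD0
    | succ c ih =>
      intro j hj h1
      have h2 := ih (j + 1) (by omega) (by omega)
      have h3 : Has L D w (j + 1) 1 := has_comp hbr (by omega) (by omega) h2 h01 (by omega)
      obtain ⟨X, hX, hXw⟩ := h2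
      obtain ⟨Z, hZ, hZw⟩ := h3
      refine ⟨Z - (e * X - X * e), L.sub_mem hZ (hbr e heL X hX), fun l hl => ?_⟩
      rw [LinearMap.sub_apply, LinearMap.sub_apply, Module.End.mul_apply, Module.End.mul_apply,
        hXw l hl, hZw l hl, hp.e_w]
      by_cases hl1 : l = j + 1
      · have h4 : X (w (l + 1)) = 0 := by
          rcases Nat.eq_or_lt_of_le hl with h5 | h5
          · rw [h5, hp.top, map_zero]
          · rw [hXw (l + 1) h5, if_neg (by omega)]
        rw [if_pos hl1, if_pos hl1, if_neg (by omega), hp.e_w, h4, zero_add, sub_zero, sub_self]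
      · rw [if_neg hl1, if_neg hl1, map_zero, zero_sub, zero_sub, neg_neg]
        rcases Nat.eq_or_lt_of_le hl with h5 | h5
        · rw [h5, hp.top, map_zero, if_neg (by omega)]
        · rw [hXw (l + 1) h5]
          by_cases hlj : l = j
          · rw [if_pos (by omega), if_pos hlj]
          · rw [if_neg (by omega), if_neg hlj]
  rcases Nat.eq_zero_or_pos i with hi0 | hi0
  · rw [hi0]
    exact hdown (D - j) j (by omega) (by omega)
  rcases Nat.eq_zero_or_pos j with hj0 | hj0
  · rw [hj0]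
    exact hup (D - i) i (by omega) hi0
  exact has_comp hbr (Nat.zero_le D) hj (hup (D - i) i (by omega) hi0)
    (hdown (D - j) j (by omega) hj0) hij

include hp he hh hf hnd hbr in
/-- **The Lie algebra contains all operators with trace zero**, unless it consists of infinitesimal
similitudes. -/
theorem full [IsAlgClosed K] (heL : e ∈ L) (hhL : h ∈ L) (hfL : f ∈ L)
    (hne : D ≤ 1 ∨ ¬ L ≤ Sim ω) {i j : ℕ} (hi : i ≤ D) (hj : j ≤ D) (hij : i ≠ j) :
    Has L D w i j := by
  rcases Nat.lt_or_ge 1 D with hD | hD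
  · have hne' := hne.resolve_left (by omega)
    obtain ⟨a, ha, h2a, haD, haL⟩ := (dich hp he hf hbr heL hhL hfL).resolve_right hne'
    obtain ⟨h1, h2⟩ := top_two hp he hh hf hnd hbr heL hfL ha h2a haD haL
    have hr := rev hp
    have hh' : ∀ u v, ω ((-h) u) v + ω u ((-h) v) = 0 := by
      intro u v
      rw [LinearMap.neg_apply, LinearMap.neg_apply, map_neg, map_neg, LinearMap.neg_apply]
      linear_combination -hh u v
    obtain ⟨a', ha', h2a', haD', haL'⟩ :=
      (dich hr hf he hbr hfL (L.neg_mem hhL) heL).resolve_right hne'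
    obtain ⟨h1', h2'⟩ := top_two hr hf hh' he hnd hbr hfL heL ha' h2a' haD' haL'
    obtain ⟨g1, g2, g3⟩ := top_has hp hbr hD hfL h1 h2
    obtain ⟨g1', g2', g3'⟩ := top_has hr hbr hD heL h1' h2'
    have k1 := has_rev hp (Nat.zero_le D) le_rfl g1'
    have k2 := has_rev hp (Nat.zero_le D) (Nat.sub_le D 1) g2'
    rw [Nat.sub_zero, Nat.sub_self] at k1
    rw [Nat.sub_zero, show D - (D - 1) = 1 by omega] at k2
    exact full_aux hp hbr heL hfL hD g1 k1 g3 k2 hi hj hij
  · have hD1 : D = 1 := by omega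
    subst hD1
    have h3 : (i = 0 ∧ j = 1) ∨ (i = 1 ∧ j = 0) := by omega
    rcases h3 with ⟨rfl, rfl⟩ | ⟨rfl, rfl⟩
    · refine ⟨e, heL, fun l hl => ?_⟩
      rw [hp.e_w]
      rcases l with _ | l
      · rw [if_pos rfl]
      · rw [if_neg (by omega), hp.zero (by omega)]
    · refine ⟨f, hfL, fun l hl => ?_⟩
      rcases l with _ | l
      · rw [hp.f_zero, if_neg (by omega)]
      · rw [hp.f_w, if_pos (by omega), show l = 0 by omega]
        push_cast
        module

/-- The diagonal operators. -/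
theorem has_diag (hbr : ∀ Y ∈ L, ∀ Z ∈ L, Y * Z - Z * Y ∈ L) {i j : ℕ} (hi : i ≤ D) (hj : j ≤ D)
    (h1 : Has L D w i j) (h2 : Has L D w j i) :
    ∃ X ∈ L, ∀ l, l ≤ D → X (w l) = (if l = i then w l else 0) - (if l = j then w l else 0) := by
  obtain ⟨X, hX, hXw⟩ := h1
  obtain ⟨Y, hY, hYw⟩ := h2
  refine ⟨_, hbr Y hY X hX, fun l hl => ?_⟩
  rw [LinearMap.sub_apply, Module.End.mul_apply, Module.End.mul_apply, hXw l hl, hYw l hl]
  congr 1
  · by_cases h : l = i
    · rw [if_pos h, if_pos h, hYw j hj, if_pos rfl, h]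
    · rw [if_neg h, if_neg h, map_zero]
  · by_cases h : l = j
    · rw [if_pos h, if_pos h, hXw i hi, if_pos rfl, h]
    · rw [if_neg h, if_neg h, map_zero]

end

end Pool.Agent.Helper86.LT
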