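import Pool.Agent.Helper86.LT.Rel

/-!
# Components of one type
-/

set_option autoImplicit false
set_option linter.unusedSectionVars false

namespace Pool.Agent.Helper86.LT

open Module Pool.Agent.V1141.OF Pool.Agent.V1141.SO Q207.DB
open Pool.Agent.H204R3.CM Pool.Agent.H204R3.SP Pool.Agent.H204R3.GP
open Pool.Agent.Y137.MV (IsEqv)

noncomputable section

variable {k : Type} [Field k] [CharZero k] {I : Type} [Fintype I] [DecidableEq I] {V : I → Type}
  [∀ i, AddCommGroup (V i)] [∀ i, Module k (V i)] {M : Type} [AddCommGroup M] [Module k M]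
  {Γ : Type} [Group Γ] (ρ : ∀ i, Representation k Γ (V i)) (τ : Representation k Γ M)
  {d : I → ℕ} (b : ∀ i, Basis (Fin (d i)) k (V i))

/-- the projection to the first or to the second factor -/
def pq (k : Type) [Field k] (V : Type) [AddCommGroup V] [Module k V] (β : Bool) :
    Module.End k (V × Dual k V) :=
  match β with
  | false => LinearMap.prodMap LinearMap.id 0
  | true => LinearMap.prodMap 0 LinearMap.id

theorem pq_sum (W : Type) [AddCommGroup W] [Module k W] (x : W × Dual k W) :
    pq k W false x + pq k W true x = x := by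
  refine Prod.ext ?_ ?_
  · change x.1 + 0 = x.1
    rw [add_zero]
  · change 0 + x.2 = x.2
    rw [zero_add]

theorem pq_dbl {W : Type} [AddCommGroup W] [Module k W] (σ : Representation k Γ W) (g : Γ)
    (β : Bool) (x : W × Dual k W) : pq k W β (dbl σ g x) = dbl σ g (pq k W β x) := by
  cases β
  · refine Prod.ext rfl ?_
    change 0 = (σ g⁻¹).dualMap 0
    rw [map_zero]
  · refine Prod.ext ?_ rfl
    change 0 = σ g 0
    rw [map_zero]

/-- the projection to one summand -/
def pj (k : Type) [Field k] {I : Type} [DecidableEq I] {V : I → Type} [∀ i, AddCommGroup (V i)]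
    [∀ i, Module k (V i)] (q : I × Bool) : Module.End k (HH k V) :=
  (LinearMap.single k (fun i => V i × Dual k (V i)) q.1).comp
    ((pq k (V q.1) q.2).comp (LinearMap.proj q.1))

theorem pj_apply (q : I × Bool) (v : HH k V) : pj k q v =
    LinearMap.single k (fun i => V i × Dual k (V i)) q.1 (pq k (V q.1) q.2 (v q.1)) := rfl

theorem pj_RR (q : I × Bool) (g : Γ) (v : HH k V) :
    pj k q (RR ρ g v) = RR ρ g (pj k q v) := by
  rw [pj_apply, pj_apply, sumRep_apply, pq_dbl]
  exact (sumRep_single (V := fun i => V i × Dual k (V i)) (fun i => dbl (ρ i)) g q.1 _).symm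

theorem pj_sum (v : HH k V) : ∑ q : I × Bool, pj k q v = v := by
  rw [Fintype.sum_prod_type]
  have h1 : ∀ i, ∑ β : Bool, pj k (i, β) v =
      LinearMap.single k (fun i => V i × Dual k (V i)) i (v i) := by
    intro i
    rw [Fintype.sum_bool, pj_apply, pj_apply, ← map_add, add_comm, pq_sum]
  rw [Finset.sum_congr rfl fun i _ => h1 i]
  exact Finset.univ_sum_single v

theorem pj_lb (q : I × Bool) (z : Letter (lab d)) :
    pj k q (lb b z) = if z.1 = q then lb b z else 0 := by
  obtain ⟨i, β⟩ := q
  refine letter_cases (fun i' a => ?_) (fun i' a => ?_) z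
  · by_cases hi : i' = i
    · subst hi
      have h1 : (LinearMap.single k (fun i => V i × Dual k (V i)) i' (b i' a, 0)) i' =
        (b i' a, 0) := Pi.single_eq_same _ _
      rw [pj_apply, lb_lf, h1]
      cases β
      · rw [if_pos rfl]
        rfl
      · rw [if_neg (fun h => Bool.noConfusion (congrArg Prod.snd h))]
        exact map_zero _
    · have h1 : (LinearMap.single k (fun i => V i × Dual k (V i)) i' (b i' a, 0)) i = 0 :=
        Pi.single_eq_of_ne (Ne.symm hi) _
      rw [pj_apply, lb_lf, h1, map_zero, map_zero, if_neg (fun h => hi (congrArg Prod.fst h))]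
  · by_cases hi : i' = i
    · subst hi
      have h1 : (LinearMap.single k (fun i => V i × Dual k (V i)) i'
        (0, (b i').dualBasis (Fin.rev a))) i' = (0, (b i').dualBasis (Fin.rev a)) :=
        Pi.single_eq_same _ _
      rw [pj_apply, lb_lt, h1]
      cases β
      · rw [if_neg (fun h => Bool.noConfusion (congrArg Prod.snd h))]
        exact map_zero _
      · rw [if_pos rfl]
        rfl
    · have h1 : (LinearMap.single k (fun i => V i × Dual k (V i)) i'
        (0, (b i').dualBasis (Fin.rev a))) i = 0 := Pi.single_eq_of_ne (Ne.symm hi) _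
      rw [pj_apply, lb_lt, h1, map_zero, map_zero, if_neg (fun h => hi (congrArg Prod.fst h))]

/-- the component of one type -/
def pt {N : ℕ} (t : Fin N → I × Bool) (φ : MultilinearMap k (fun _ : Fin N => HH k V) M) :
    MultilinearMap k (fun _ : Fin N => HH k V) M :=
  φ.compLinearMap fun s => pj k (t s)

theorem pt_apply {N : ℕ} (t : Fin N → I × Bool)
    (φ : MultilinearMap k (fun _ : Fin N => HH k V) M) (x : Fin N → HH k V) :
    pt t φ x = φ (fun s => pj k (t s) (x s)) := rfl

theorem sum_pt {N : ℕ} (φ : MultilinearMap k (fun _ : Fin N => HH k V) M) :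
    φ = ∑ t : Fin N → I × Bool, pt t φ := by
  refine MultilinearMap.ext fun x => ?_
  rw [sum_apply]
  have h1 : x = fun l => ∑ q, pj k q (x l) := by
    funext l
    exact (pj_sum (x l)).symm
  conv_lhs => rw [h1]
  rw [MultilinearMap.map_sum]
  rfl

theorem pt_eqv {N : ℕ} (t : Fin N → I × Bool)
    {φ : MultilinearMap k (fun _ : Fin N => HH k V) M} (hφ : IsEqv (RR ρ) τ φ) :
    IsEqv (RR ρ) τ (pt t φ) := by
  obtain ⟨Δ, hΔ, h⟩ := hφ
  refine ⟨Δ, hΔ, fun s hs v => ?_⟩
  rw [pt_apply, pt_apply, ← h s hs]
  congr 1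
  funext l
  exact pj_RR ρ (t l) s (v l)

theorem pt_typ {N : ℕ} (t : Fin N → I × Bool)
    (φ : MultilinearMap k (fun _ : Fin N => HH k V) M) (l : M →ₗ[k] k)
    {w : Fin N → Letter (lab d)} (hw : co b (l.compMultilinearMap (pt t φ)) w ≠ 0) (s : Fin N) :
    (w s).1 = t s := by
  by_contra hne
  apply hw
  change l (φ (fun s => pj k (t s) (lb b (w s)))) = 0
  rw [φ.map_coord_zero s (by rw [pj_lb, if_neg hne]), map_zero]

variable {ρ τ}

theorem j_ite (j : k →+* ℂ) (p : Prop) [Decidable p] :
    j (if p then (1 : k) else 0) = if p then 1 else 0 := by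
  split_ifs
  · exact map_one j
  · exact map_zero j

/-- The coordinates of a component of one type are a combination of products of determinants and
pairings. -/
theorem mem_detSpan (j : k →+* ℂ)
    (hE : ∀ i, ∀ x y : Fin (d i), x ≠ y → ∃ X ∈ lieA ρ τ i, ∀ z,
      X (b i z) = if z = x then b i y else 0)
    (hD : ∀ i, ∀ x y : Fin (d i), x ≠ y → ∃ X ∈ lieA ρ τ i, ∀ z,
      X (b i z) = (if z = x then b i z else 0) - (if z = y then b i z else 0)) {N : ℕ}
    {φ : MultilinearMap k (fun _ : Fin N => HH k V) M} (hφ : IsEqv (RR ρ) τ φ) (l : M →ₗ[k] k)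
    (t : Fin N → I × Bool) :
    (fun w : Fin N → Letter (lab d) => j (co b (l.compMultilinearMap (pt t φ)) w)) = 0 ∨
    ∃ m : I × Bool → ℕ, (fun w : Fin N → Letter (lab d) =>
      j (co b (l.compMultilinearMap (pt t φ)) w)) ∈
        DetSpan sgl (fun q : Σ q : I × Bool, Fin (m q) => q.1) (Fin N) := by
  classical
  by_cases h0 : (fun w : Fin N → Letter (lab d) =>
    j (co b (l.compMultilinearMap (pt t φ)) w)) = 0
  · exact Or.inl h0
  right
  obtain ⟨w0, hw0⟩ := Function.ne_iff.1 h0
  have hφt := pt_eqv ρ τ t hφ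
  have hj : ∀ w, j (co b (l.compMultilinearMap (pt t φ)) w) ≠ 0 →
      co b (l.compMultilinearMap (pt t φ)) w ≠ 0 := by
    intro w hw h
    apply hw
    rw [h, map_zero]
  -- the relations
  have hrel : ∀ (i : I) (x y : Fin (d i)), x ≠ y → ∀ w : Fin N → Letter (lab d),
      ∑ s, ((if w s = lf i x then (1 : ℂ) else 0) *
        j (co b (l.compMultilinearMap (pt t φ)) (Function.update w s (lf i y))) -
      (if w s = lt i (Fin.rev y) then (1 : ℂ) else 0) *
        j (co b (l.compMultilinearMap (pt t φ)) (Function.update w s (lt i (Fin.rev x))))) = 0 := by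
    intro i x y hxy w
    obtain ⟨X, hX, hXb⟩ := hE i x y hxy
    have h1 := congrArg j (rel_elem b hXb (hX (Fin N) _ l hφt) w)
    rw [map_sum, map_zero] at h1
    refine Eq.trans (Finset.sum_congr rfl fun s _ => ?_) h1
    rw [map_sub, map_mul, map_mul, j_ite, j_ite]
  refine ⟨mult w0, core (fun x _ => sgl_dual x) sgl_ne (t := t) ?_ ?_ ?_ ?_ ?_ hw0 ?_⟩
  · intro p
    refine letter_cases (fun i a => ?_) (fun i a => ?_) p
    · intro c
      refine letter_cases (fun i' a' => ?_) (fun i' a' => ?_) c
      · intro _ h1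
        rw [dual_lf] at h1
        exact absurd (congrArg Prod.snd h1) (by simp)
      · intro _ h1 h2 w
        rw [dual_lf] at h1 h2
        have hi : i = i' := congrArg Prod.fst h1
        subst hi
        have h3 : Fin.rev a' ≠ a := fun h => h2 (by rw [← h, Fin.rev_rev])
        have h4 := hrel i (Fin.rev a') a h3 w
        rw [Fin.rev_rev] at h4
        rw [← neg_eq_zero, ← Finset.sum_neg_distrib]
        refine Eq.trans (Finset.sum_congr rfl fun s _ => ?_) h4
        unfold JJ
        rw [dual_lf, dual_lt, sgl_lf, sgl_lt]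
        by_cases e1 : w s = lf i (Fin.rev a')
        · rw [if_pos e1, if_pos e1, e1, if_neg lf_ne_lt]
          ring
        · rw [if_neg e1, if_neg e1]
          ring
    · intro c
      refine letter_cases (fun i' a' => ?_) (fun i' a' => ?_) c
      · intro _ h1 h2 w
        rw [dual_lt] at h1 h2
        have hi : i = i' := congrArg Prod.fst h1
        subst hi
        have h3 : Fin.rev a ≠ a' := fun h => h2 (by rw [← h])
        have h4 := hrel i (Fin.rev a) a' h3 w
        rw [Fin.rev_rev] at h4
        rw [← neg_eq_zero, ← Finset.sum_neg_distrib]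
        refine Eq.trans (Finset.sum_congr rfl fun s _ => ?_) h4
        unfold JJ
        rw [dual_lf, dual_lt, sgl_lf, sgl_lt]
        by_cases e1 : w s = lf i (Fin.rev a)
        · rw [if_pos e1, if_pos e1, e1, if_neg lf_ne_lt]
          ring
        · rw [if_neg e1, if_neg e1]
          ring
      · intro _ h1
        rw [dual_lt] at h1
        exact absurd (congrArg Prod.snd h1) (by simp)
  · intro p c hp
    exact absurd hp (not_orth p)
  · intro w hw s
    exact pt_typ b t φ l (hj w hw) s
  · intro w hw q x y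
    exact net_all b hD hφt l (hj w hw) q x y
  · intro w _ q hq
    exact absurd hq (by change ¬ false = true; simp)
  · intro w _ x hx
    exact absurd hx (not_orth x)

end

end Pool.Agent.Helper86.LT
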