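import Pool.Agent.Helper86.LT.Coord

/-!
# The relations of the coordinates
-/

set_option autoImplicit false
set_option linter.unusedSectionVars false

namespace Pool.Agent.Helper86.LT

open Module Pool.Agent.V1141.OF Pool.Agent.V1141.SO Q207.DB
open Pool.Agent.H204R3.CM Pool.Agent.H204R3.SP Pool.Agent.H204R3.GP
open Pool.Agent.Y137.MV (IsEqv)

noncomputable section

variable {k : Type} [Field k] [CharZero k] {I : Type} [Fintype I] [DecidableEq I] {V : I → Type}
  [∀ i, AddCommGroup (V i)] [∀ i, Module k (V i)] {M : Type} [AddCommGroup M] [Module k M]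
  {Γ : Type} [Group Γ] (ρ : ∀ i, Representation k Γ (V i)) (τ : Representation k Γ M)
  {d : I → ℕ} (b : ∀ i, Basis (Fin (d i)) k (V i))

/-- the coordinates of a scalar component -/
def co {N : ℕ} (ψ : MultilinearMap k (fun _ : Fin N => HH k V) k) (w : Fin N → Letter (lab d)) : k :=
  ψ (fun s => lb b (w s))

theorem co_update {N : ℕ} (ψ : MultilinearMap k (fun _ : Fin N => HH k V) k)
    (w : Fin N → Letter (lab d)) (s : Fin N) (z : Letter (lab d)) :
    ψ (Function.update (fun s => lb b (w s)) s (lb b z)) = co b ψ (Function.update w s z) := by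
  unfold co
  congr 1
  funext s'
  by_cases h : s' = s
  · subst h
    rw [Function.update_self, Function.update_self]
  · rw [Function.update_of_ne h, Function.update_of_ne h]

variable {ρ τ}

theorem rel_elem {i : I} {x y : Fin (d i)} {X : Module.End k (V i)}
    (hX : ∀ z, X (b i z) = if z = x then b i y else 0) {N : ℕ}
    {ψ : MultilinearMap k (fun _ : Fin N => HH k V) k} (hψ : Kills (ih i X) ψ)
    (w : Fin N → Letter (lab d)) :
    ∑ s, ((if w s = lf i x then (1 : k) else 0) * co b ψ (Function.update w s (lf i y)) -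
      (if w s = lt i (Fin.rev y) then (1 : k) else 0) *
        co b ψ (Function.update w s (lt i (Fin.rev x)))) = 0 := by
  refine Eq.trans (Finset.sum_congr rfl fun s _ => ?_) (hψ (fun s => lb b (w s)))
  rw [ih_elem b hX, MultilinearMap.map_update_sub, MultilinearMap.map_update_smul,
    MultilinearMap.map_update_smul, co_update, co_update, smul_eq_mul, smul_eq_mul]

theorem rel_diag {i : I} {c : Fin (d i) → k} {X : Module.End k (V i)}
    (hX : ∀ z, X (b i z) = c z • b i z) {N : ℕ}
    {ψ : MultilinearMap k (fun _ : Fin N => HH k V) k} (hψ : Kills (ih i X) ψ)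
    {w : Fin N → Letter (lab d)} (hw : co b ψ w ≠ 0) :
    ∑ s, ∑ x, c x * ((if w s = lf i x then (1 : k) else 0) -
      (if w s = lt i (Fin.rev x) then 1 else 0)) = 0 := by
  have h1 := hψ (fun s => lb b (w s))
  have h2 : ∀ s, ψ (Function.update (fun s => lb b (w s)) s (ih i X (lb b (w s)))) =
      (∑ x, c x * ((if w s = lf i x then (1 : k) else 0) -
        (if w s = lt i (Fin.rev x) then 1 else 0))) * co b ψ w := by
    intro s
    rw [ih_diag b hX, MultilinearMap.map_update_smul, Function.update_eq_self, smul_eq_mul]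
    rfl
  rw [Finset.sum_congr rfl fun s _ => h2 s, ← Finset.sum_mul] at h1
  exact (mul_eq_zero.1 h1).resolve_right hw

omit [Fintype I] in
theorem occ_sum {N : ℕ} (w : Fin N → Letter (lab d)) (z : Letter (lab d)) :
    ∑ s, (if w s = z then (1 : k) else 0) = (occ w z : ℕ) := by
  unfold occ
  rw [Finset.sum_boole]

/-- The differences of the multiplicities. -/
theorem net_lf {i : I} (hD : ∀ x y : Fin (d i), x ≠ y → ∃ X ∈ lieA ρ τ i, ∀ z,
      X (b i z) = (if z = x then b i z else 0) - (if z = y then b i z else 0)) {N : ℕ}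
    {φ : MultilinearMap k (fun _ : Fin N => HH k V) M} (hφ : IsEqv (RR ρ) τ φ) (l : M →ₗ[k] k)
    {w : Fin N → Letter (lab d)} (hw : co b (l.compMultilinearMap φ) w ≠ 0) (x y : Fin (d i)) :
    net w (lf i x) = net w (lf i y) := by
  classical
  by_cases hxy : x = y
  · rw [hxy]
  obtain ⟨X, hX, hXb⟩ := hD x y hxy
  have h1 := rel_diag (c := fun z => (if z = x then 1 else 0) - (if z = y then 1 else 0)) b
    (X := X) (fun z => by
      rw [hXb, sub_smul, ite_smul, ite_smul, one_smul, zero_smul]) (hX (Fin N) φ l hφ) hw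
  have h2 : ∀ s, ∑ z, ((if z = x then (1 : k) else 0) - (if z = y then 1 else 0)) *
      ((if w s = lf i z then (1 : k) else 0) - (if w s = lt i (Fin.rev z) then 1 else 0)) =
      ((if w s = lf i x then (1 : k) else 0) - (if w s = lt i (Fin.rev x) then 1 else 0)) -
      ((if w s = lf i y then (1 : k) else 0) - (if w s = lt i (Fin.rev y) then 1 else 0)) := by
    intro s
    simp only [sub_mul, Finset.sum_sub_distrib, ite_mul, one_mul, zero_mul, Finset.sum_ite_eq',
      Finset.mem_univ, if_true]
  rw [Finset.sum_congr rfl fun s _ => h2 s] at h1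
  simp only [Finset.sum_sub_distrib, occ_sum] at h1
  unfold net
  rw [dual_lf, dual_lf]
  have h3 : (((occ w (lf i x) : ℤ) - (occ w (lt i (Fin.rev x)) : ℤ) : ℤ) : k) =
      (((occ w (lf i y) : ℤ) - (occ w (lt i (Fin.rev y)) : ℤ) : ℤ) : k) := by
    push_cast
    linear_combination h1
  exact Int.cast_injective h3

theorem net_all (hD : ∀ i, ∀ x y : Fin (d i), x ≠ y → ∃ X ∈ lieA ρ τ i, ∀ z,
      X (b i z) = (if z = x then b i z else 0) - (if z = y then b i z else 0)) {N : ℕ}
    {φ : MultilinearMap k (fun _ : Fin N => HH k V) M} (hφ : IsEqv (RR ρ) τ φ) (l : M →ₗ[k] k)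
    {w : Fin N → Letter (lab d)} (hw : co b (l.compMultilinearMap φ) w ≠ 0) (q : I × Bool)
    (x y : Fin ((lab d).dim q)) :
    net w ⟨q, x⟩ = net w ⟨q, y⟩ := by
  obtain ⟨i, β⟩ := q
  cases β
  · exact net_lf b (hD i) hφ l hw x y
  · have h1 : ∀ z : Fin (d i), net w (lt i z) = -net w (lf i (Fin.rev z)) := by
      intro z
      have h2 := net_dual w (lf i (Fin.rev z))
      rw [dual_lf, Fin.rev_rev] at h2
      exact h2
    have h4 := net_lf b (hD i) hφ l hw (Fin.rev (x : Fin (d i))) (Fin.rev (y : Fin (d i)))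
    exact (h1 x).trans ((congrArg Neg.neg h4).trans (h1 y).symm)

end

end Pool.Agent.Helper86.LT
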