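import Pool.Graph.R_seed8.Y126.MU.Dich

/-!
# Lie algebras of operators which contain the principal triple

The Lie algebra `L` of operators on a space of dimension `D + 1` contains a triple `e, h, f` with a
single Jordan block. Then `L` consists of infinitesimal similitudes of the invariant form, or it
contains an even power `e ^ k`, `2 ≤ k ≤ D`; in the second case it contains all operators with trace
zero.
-/

set_option autoImplicit false
set_option linter.unusedSectionVars false

namespace Pool.Agent.Helper86.LT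

open Module Finset Pool.Agent.Y126.JB Pool.Agent.Y126.MU

section gen

variable {K : Type*} [Field K] [CharZero K] {A : Type*} [AddCommGroup A] [Module K A]
  {e h f : End K A}

/-- The action of `e` on the vectors `f ^ n v`. -/
theorem e_f_pow (hef : ∀ x, e (f x) = f (e x) + h x)
    (hhf : ∀ x, h (f x) = f (h x) - (2 : K) • f x) {v : A} {a : K} (hv : e v = 0)
    (hw : h v = a • v) (n : ℕ) : h ((f ^ n) v) = (a - 2 * n) • (f ^ n) v ∧
      e ((f ^ (n + 1)) v) = (((n : K) + 1) * (a - n)) • (f ^ n) v := by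
  have h1 : ∀ n : ℕ, h ((f ^ n) v) = (a - 2 * n) • (f ^ n) v := by
    intro n
    induction n with
    | zero =>
      rw [pow_zero, Module.End.one_apply, hw]
      congr 1
      push_cast
      ring
    | succ n ih =>
      rw [pow_succ', Module.End.mul_apply, hhf, ih, map_smul]
      push_cast
      module
  refine ⟨h1 n, ?_⟩
  induction n with
  | zero =>
    rw [zero_add, pow_one, pow_zero, Module.End.one_apply, hef, hv, map_zero, hw, zero_add]
    congr 1
    push_cast
    ring
  | succ n ih =>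
    rw [pow_succ' f (n + 1), Module.End.mul_apply, hef, ih, h1, map_smul,
      ← Module.End.mul_apply f, ← pow_succ']
    push_cast
    module

/-- `e ^ n f ^ n v` is a nonzero multiple of `v`, if `n` is at most the weight of `v`. -/
theorem e_pow_f_pow (hef : ∀ x, e (f x) = f (e x) + h x)
    (hhf : ∀ x, h (f x) = f (h x) - (2 : K) • f x) {v : A} {a : ℕ} (hv : e v = 0)
    (hw : h v = (a : K) • v) (n : ℕ) (hn : n ≤ a) :
    ∃ c : K, c ≠ 0 ∧ (e ^ n) ((f ^ n) v) = c • v := by
  induction n with
  | zero => exact ⟨1, one_ne_zero, by rw [pow_zero, pow_zero, one_smul]; rfl⟩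
  | succ n ih =>
    obtain ⟨c, hc, h1⟩ := ih (by omega)
    refine ⟨((n : K) + 1) * ((a : K) - n) * c, ?_, ?_⟩
    · refine mul_ne_zero (mul_ne_zero (Nat.cast_add_one_ne_zero n) ?_) hc
      rw [sub_ne_zero]
      intro h2
      have h3 : a = n := Nat.cast_injective h2
      omega
    · rw [pow_succ e, Module.End.mul_apply, (e_f_pow hef hhf hv hw n).2, map_smul, h1, smul_smul]

end gen

section

variable {K : Type*} [Field K] [CharZero K] {T : Type*} [AddCommGroup T] [Module K T]
  [FiniteDimensional K T] {e h f : End K T} {D : ℕ} {w : ℕ → T} (hp : Prin e h f D w)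

/-- the reversed triple -/
theorem rev (hp : Prin e h f D w) : Prin f (-h) e D (fun i => (f ^ i) (w D)) := by
  have hz : ∀ i, D < i → (f ^ i) (w D) = 0 := fun i hi => hp.f_pow_zero hi le_rfl
  have hef : ∀ x, e (f x) = h x + f (e x) := by
    intro x
    have h1 := LinearMap.congr_fun hp.ef x
    rw [ad_apply, LinearMap.sub_apply, Module.End.mul_apply, Module.End.mul_apply] at h1
    rw [h1]
    abel
  have hh : ∀ i : ℕ, h ((f ^ i) (w D)) = ((D : K) - 2 * i) • (f ^ i) (w D) := by
    intro i
    rcases Nat.lt_or_ge D i with hi | hi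
    · rw [hz i hi, map_zero, smul_zero]
    · obtain ⟨c, -, hc⟩ := hp.f_pow hi le_rfl
      rw [hc, map_smul, hp.h_w, Nat.cast_sub hi]
      module
  choose! c hc0 hc using fun i (hi : i ≤ D) => hp.f_pow hi le_rfl
  have hfw : ∀ i : ℕ, e ((f ^ (i + 1)) (w D)) = (((i : K) + 1) * ((D : K) - i)) • (f ^ i) (w D) := by
    intro i
    induction i with
    | zero =>
      rw [zero_add, pow_one, hef, hp.h_w, hp.e_w, hp.top, map_zero, _root_.pow_zero,
        Module.End.one_apply]
      push_cast
      module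
    | succ i ih =>
      rw [pow_succ' f (i + 1), Module.End.mul_apply, hef, ih, hh, map_smul,
        ← Module.End.mul_apply f, ← pow_succ']
      push_cast
      module
  refine ⟨fun i => ?_, ?_, fun i => ?_, ?_, hfw, fun x => ?_, fun a ha i hi => ?_⟩
  · rw [← Module.End.mul_apply, ← pow_succ']
  · exact hz _ (Nat.lt_succ_self D)
  · rw [LinearMap.neg_apply, hh]
    module
  · rw [_root_.pow_zero, Module.End.one_apply, hp.e_w, hp.top]
  · obtain ⟨a, rfl⟩ := hp.span x
    refine ⟨fun i => a (D - i) * (c i)⁻¹, ?_⟩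
    rw [← Finset.sum_range_reflect]
    refine Finset.sum_congr rfl fun i hi => ?_
    rw [mem_range] at hi
    rw [show D + 1 - 1 - i = D - i by omega, hc i (by omega), smul_smul, mul_assoc,
      inv_mul_cancel₀ (hc0 i (by omega)), mul_one]
  · have h1 : ∑ j ∈ range (D + 1), (a (D - j) * c (D - j)) • w j = 0 := by
      rw [← ha, ← Finset.sum_range_reflect]
      refine Finset.sum_congr rfl fun j hj => ?_
      rw [mem_range] at hj
      rw [show D + 1 - 1 - j = D - j by omega, hc j (by omega), smul_smul,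
        show D - (D - j) = j by omega]
    have h2 := hp.indep _ h1 (D - i) (by omega)
    rw [show D - (D - i) = i by omega] at h2
    exact (mul_eq_zero.1 h2).resolve_right (hc0 i hi)

include hp in
theorem coef {m : ℕ} (hm : m ≤ D) {a b : K} (h1 : a • w m = b • w m) : a = b := by
  rw [← sub_eq_zero, ← sub_smul] at h1
  exact sub_eq_zero.1 ((smul_eq_zero.1 h1).resolve_right (hp.ne_zero hm))

include hp in
theorem ad_ef (x : End K T) : ad K e (ad K f x) = ad K f (ad K e x) + ad K h x := by
  rw [ad_jac, ← hp.ef, add_comm]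

include hp in
theorem ad_hf (x : End K T) : ad K h (ad K f x) = ad K f (ad K h x) - (2 : K) • ad K f x := by
  rw [ad_jac, hp.hf, ad_smul', LinearMap.smul_apply]
  module

theorem ad_e_pow (k : ℕ) : ad K e (e ^ k) = 0 := by
  rw [ad_apply, ← pow_succ', ← pow_succ, sub_self]

include hp in
theorem h_e_pow (k : ℕ) : ad K h (e ^ k) = ((2 * k : ℕ) : K) • e ^ k := by
  rw [hp.ad_e_pow']
  push_cast
  rfl

variable (ω : T →ₗ[K] T →ₗ[K] K)

/-- the infinitesimal similitudes of `ω` -/
def Sim : Submodule K (End K T) where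
  carrier := {X | ∃ c : K, ∀ u v, ω (X u) v + ω u (X v) = c * ω u v}
  zero_mem' := ⟨0, fun u v => by simp⟩
  add_mem' := by
    rintro X Y ⟨c, hX⟩ ⟨d, hY⟩
    refine ⟨c + d, fun u v => ?_⟩
    rw [LinearMap.add_apply, LinearMap.add_apply, map_add, map_add, LinearMap.add_apply]
    linear_combination hX u v + hY u v
  smul_mem' := by
    rintro a X ⟨c, hX⟩
    refine ⟨a * c, fun u v => ?_⟩
    rw [LinearMap.smul_apply, LinearMap.smul_apply, map_smul, map_smul, LinearMap.smul_apply,
      smul_eq_mul, smul_eq_mul]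
    linear_combination a * hX u v

variable {ω}

theorem sim_br {X Y : End K T} (hX : X ∈ Sim ω) (hY : Y ∈ Sim ω) (u v : T) :
    ω ((X * Y - Y * X) u) v + ω u ((X * Y - Y * X) v) = 0 := by
  obtain ⟨c, hX⟩ := hX
  obtain ⟨d, hY⟩ := hY
  rw [LinearMap.sub_apply, LinearMap.sub_apply, Module.End.mul_apply, Module.End.mul_apply,
    Module.End.mul_apply, Module.End.mul_apply, map_sub, map_sub, LinearMap.sub_apply]
  linear_combination hX (Y u) v - hY (X u) v + hX u (Y v) - hY u (X v) - d * hX u v + c * hY u v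

theorem sim_br' {X Y : End K T} (hX : X ∈ Sim ω) (hY : Y ∈ Sim ω) : X * Y - Y * X ∈ Sim ω :=
  ⟨0, fun u v => by rw [sim_br hX hY, zero_mul]⟩

variable (he : ∀ u v, ω (e u) v + ω u (e v) = 0)
  (hh : ∀ u v, ω (h u) v + ω u (h v) = 0)
  (hf : ∀ u v, ω (f u) v + ω u (f v) = 0)
  (hnd : ∀ u, (∀ v, ω u v = 0) → u = 0)
  {L : Submodule K (End K T)} (hbr : ∀ Y ∈ L, ∀ Z ∈ L, Y * Z - Z * Y ∈ L)

theorem sim_of_skew {X : End K T} (hX : ∀ u v, ω (X u) v + ω u (X v) = 0) : X ∈ Sim ω :=
  ⟨0, fun u v => by rw [hX, zero_mul]⟩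

include hbr in
theorem ad_pow_mem {X Y : End K T} (hX : X ∈ L) (hY : Y ∈ L) (n : ℕ) : (ad K X ^ n) Y ∈ L := by
  induction n with
  | zero => exact hY
  | succ n ih =>
    rw [pow_succ', Module.End.mul_apply]
    exact hbr X hX _ ih

theorem ad_pow_sim {X Y : End K T} (hX : X ∈ Sim ω) (hY : Y ∈ Sim ω) (n : ℕ) :
    (ad K X ^ n) Y ∈ Sim ω :=
  ad_pow_mem (L := Sim ω) (fun _ hY _ hZ => sim_br' hY hZ) hX hY n

include hp he hf hbr in
/-- **The dichotomy.** The Lie algebra consists of infinitesimal similitudes, or it contains an even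
power of `e`. -/
theorem dich [IsAlgClosed K] (heL : e ∈ L) (hhL : h ∈ L) (hfL : f ∈ L) :
    (∃ k, Even k ∧ 2 ≤ k ∧ k ≤ D ∧ e ^ k ∈ L) ∨ L ≤ Sim ω := by
  by_cases hex : ∃ k, Even k ∧ 2 ≤ k ∧ k ≤ D ∧ e ^ k ∈ L
  · exact Or.inl hex
  right
  have key : ∀ n : ℕ, ∀ (a : K) (X : End K T), X ∈ L → ad K h X = a • X →
      (ad K e ^ n) X = 0 → X ∈ Sim ω := by
    intro n
    induction n with
    | zero =>
      intro a X _ _ h0
      rw [_root_.pow_zero, Module.End.one_apply] at h0
      rw [h0]
      exact Submodule.zero_mem _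
    | succ n ih =>
      intro a X hX hXa h0
      by_cases hY0 : (ad K e ^ n) X = 0
      · exact ih a X hX hXa hY0
      have hadh : ad K (ad K h) (ad K e) = (2 : K) • ad K e := by
        rw [ad_ad, hp.he, ad_smul']
      have hYw := h_pow_apply hadh hXa n
      rw [pow_succ', Module.End.mul_apply] at h0
      obtain ⟨k, c, hk, hk0, hc, hY⟩ := hp.centr hY0 h0 hYw
      have hkL : e ^ k ∈ L := by
        refine (Submodule.smul_mem_iff _ hc).1 ?_
        rw [← hY]
        exact ad_pow_mem hbr heL hX n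
      have hkS : e ^ k ∈ Sim ω := by
        rcases Nat.even_or_odd k with hev | hodd
        · have h2 : ¬ 2 ≤ k := fun h2 => hex ⟨k, hev, h2, hk, hkL⟩
          obtain ⟨r, hr⟩ := hev
          have h3 : k = 0 := by omega
          rw [h3, _root_.pow_zero]
          exact ⟨2, fun u v => by rw [Module.End.one_apply, Module.End.one_apply]; ring⟩
        · refine sim_of_skew fun u v => ?_
          rw [om_pow he, hodd.neg_one_pow]
          ring
      have hn : n ≤ 2 * k := by
        by_contra hlt
        apply hY0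
        refine no_small (e := ad K e) (f := ad K f) (h := ad K h) (by rw [ad_ad, ← hp.ef]) hadh
          (ad_nilpotent hp.nil) (j := n) (i := 2 * k) (mem_Kj.2 ⟨h0, X, rfl⟩) (by omega) ?_
        rw [hYw, hk0]
        push_cast
        rfl
      obtain ⟨C, hC, hCe⟩ := e_pow_f_pow (ad_ef hp) (ad_hf hp) (ad_e_pow k) (h_e_pow hp k) n hn
      obtain ⟨Z, hZ⟩ : ∃ Z, Z = (ad K f ^ n) (e ^ k) := ⟨_, rfl⟩
      rw [← hZ] at hCe
      have hZL : Z ∈ L := by
        rw [hZ]
        exact ad_pow_mem hbr hfL hkL n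
      have hZS : Z ∈ Sim ω := by
        rw [hZ]
        exact ad_pow_sim (sim_of_skew hf) hkS n
      have hZw : ad K h Z = a • Z := by
        rw [hZ, hp.ad_f_pow (hp.ad_e_pow' k)]
        congr 1
        linear_combination -hk0
      have h1 := ih a (X - (c / C) • Z) (L.sub_mem hX (L.smul_mem _ hZL)) (by
        rw [map_sub, map_smul, hXa, hZw]
        module) (by
        rw [map_sub, map_smul, hCe, hY, smul_smul, div_mul_cancel₀ _ hC, sub_self])
      have h2 := Submodule.add_mem _ h1 (Submodule.smul_mem _ (c / C) hZS)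
      rwa [sub_add_cancel] at h2
  obtain ⟨N, hN⟩ := ad_nilpotent (K := K) hp.nil
  exact le_of_gE (fun x hx => hbr h hhL x hx) fun μ x hx hx' =>
    key N μ x hx (hp.ad_gE hx') (by rw [hN, LinearMap.zero_apply])

include hp he hh hnd in
/-- even powers are not similitudes -/
theorem even_not_sim {k : ℕ} (hk : Even k) (h2k : 2 ≤ k) (hkD : k ≤ D) : e ^ k ∉ Sim ω := by
  rintro ⟨c, hc⟩
  have h1 : ∀ u v, ω ((e ^ k) u) v = ω u ((e ^ k) v) := by
    intro u v
    rw [om_pow he, hk.neg_one_pow, one_mul]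
  have h2 := hc (w 0) (w D)
  rw [h1, hp.pow, hp.zero (i := D + k) (by omega), map_zero, add_zero] at h2
  have h3 : c = 0 := (mul_eq_zero.1 h2.symm).resolve_right (hp.pair he hh hnd)
  have h4 := hc (w 0) (w (D - k))
  rw [h1, hp.pow, h3, zero_mul, Nat.sub_add_cancel hkD, ← two_mul] at h4
  exact hp.pair he hh hnd ((mul_eq_zero.1 h4).resolve_left two_ne_zero)

end

end Pool.Agent.Helper86.LT
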