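import Pool.Agent.Helper86.LT.Defs

/-!
# Representations, their duals, and products of evaluations and determinants: the statement
-/

set_option autoImplicit false

namespace Pool.Agent.Helper86.LTS

open Module
open Pool.Agent.Helper86.LT (Piece)

/-- The result `ρ g v` of the action of `g` on `v`. -/
def move {k : Type} [Field k] {Γ : Type} [Group Γ] {V : Type} [AddCommGroup V] [Module k V]
    (ρ : Representation k Γ V) (g : Γ) (v : V) : V := ρ g v

/-- The value `B u v` of a bilinear form. -/
def value {k : Type} [Field k] {V : Type} [AddCommGroup V] [Module k V]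
    (B : V →ₗ[k] V →ₗ[k] k) (u v : V) : k := B u v

/-- The value `ξ v` of a linear form. -/
def eval {k : Type} [Field k] {V : Type} [AddCommGroup V] [Module k V] (ξ : Dual k V) (v : V) : k :=
  ξ v

variable {k : Type} [Field k] {Γ : Type} [Group Γ] {I : Type}

/-- The sum of `V` and its dual space: pairs of a vector of `V` and a linear form on `V`. -/
def Dbl (P : Piece k Γ) : Type := P.V × Dual k P.V

instance (P : Piece k Γ) : AddCommGroup (Dbl P) := inferInstanceAs (AddCommGroup (P.V × Dual k P.V))

instance (P : Piece k Γ) : Module k (Dbl P) := inferInstanceAs (Module k (P.V × Dual k P.V))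

/-- the vector -/
def vec {P : Piece k Γ} (x : Dbl P) : P.V := Prod.fst x

/-- the linear form -/
def cov {P : Piece k Γ} (x : Dbl P) : Dual k P.V := Prod.snd x

/-- The action of `Γ` on the sum of `V` and its dual space; the linear form `ξ` is mapped to the linear
form `v ↦ ξ (g⁻¹ v)`. -/
def moveDbl (P : Piece k Γ) (g : Γ) (x : Dbl P) : Dbl P :=
  (move P.ρ g (vec x), move P.ρ.dual g (cov x))

/-- The sum `H` of all `V i` and of all their dual spaces. -/
abbrev Sum (P : I → Piece k Γ) : Type := ∀ i, Dbl (P i)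

/-- The action of `Γ` on `H`. -/
def act (P : I → Piece k Γ) (g : Γ) (x : Sum P) : Sum P := fun i => moveDbl (P i) g (x i)

/-- `f` is a Tate class: it is equivariant under a subgroup of finite index. -/
def IsTateClass {M : Type} [AddCommGroup M] [Module k M] (P : I → Piece k Γ)
    (τ : Representation k Γ M) {N : ℕ} (f : MultilinearMap k (fun _ : Fin N => Sum P) M) : Prop :=
  ∃ Δ : Subgroup Γ, Δ.FiniteIndex ∧
    ∀ g ∈ Δ, ∀ x : Fin N → Sum P, f (fun l => act P g (x l)) = move τ g (f x)

/-- The form `φ` in two variables is one of the evaluations `(v, ξ) ↦ ξ v` on `V i`. -/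
def IsEvaluation (P : I → Piece k Γ) {m : ℕ}
    (φ : MultilinearMap k (fun _ : Fin m => Sum P) k) : Prop :=
  ∃ (i : I) (e : Fin 2 ≃ Fin m), ∀ x, φ x = eval (cov (x (e 1) i)) (vec (x (e 0) i))

/-- The form `φ` in `dim (V i)` variables is a determinant form of one of the `V i`: an alternating
form in `dim (V i)` variables on `V i`. -/
def IsDeterminant (P : I → Piece k Γ) {m : ℕ}
    (φ : MultilinearMap k (fun _ : Fin m => Sum P) k) : Prop :=
  ∃ i : I, m = finrank k (P i).V ∧
    ∃ D : (P i).V [⋀^Fin m]→ₗ[k] k, ∀ x, φ x = D (fun l => vec (x l i))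

/-- The form `φ` in `dim (V i)` variables is a determinant form of the dual of one of the `V i`. -/
def IsDualDeterminant (P : I → Piece k Γ) {m : ℕ}
    (φ : MultilinearMap k (fun _ : Fin m => Sum P) k) : Prop :=
  ∃ i : I, m = finrank k (P i).V ∧
    ∃ D : (Dual k (P i).V) [⋀^Fin m]→ₗ[k] k, ∀ x, φ x = D (fun l => cov (x l i))

/-- `φ` is a product of evaluations and determinant forms; each variable occurs in exactly one of the
factors. -/
def IsProductOfForms (P : I → Piece k Γ) {N : ℕ}
    (φ : MultilinearMap k (fun _ : Fin N => Sum P) k) : Prop :=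
  ∃ (A : Type) (_ : Fintype A) (m : A → ℕ) (p : (Σ a, Fin (m a)) ≃ Fin N)
    (ψ : ∀ a, MultilinearMap k (fun _ : Fin (m a) => Sum P) k),
    (∀ a, IsEvaluation P (ψ a) ∨ IsDeterminant P (ψ a) ∨ IsDualDeterminant P (ψ a)) ∧
      ∀ x, φ x = ∏ a, ψ a (fun i => x (p ⟨a, i⟩))

/-- `f` is a Tate class which is the product of a form `ψ`, which is itself a product of evaluations
and determinant forms, and of a vector `u` of `M`. -/
def IsProductTimes {M : Type} [AddCommGroup M] [Module k M] (P : I → Piece k Γ)
    (τ : Representation k Γ M) {N : ℕ} (f : MultilinearMap k (fun _ : Fin N => Sum P) M) : Prop :=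
  (∃ (ψ : MultilinearMap k (fun _ : Fin N => Sum P) k) (u : M),
    IsProductOfForms P ψ ∧ ∀ x, f x = ψ x • u) ∧ IsTateClass P τ f

/-- The element `F` of `Γ` acts on `V` with eigenvalues which are pure of weight `m`:
`|a| ^ 2 = |χ F| ^ m`, where the absolute values are taken with the embedding `j` of `k` into the
field of complex numbers. -/
def IsPure (j : k →+* ℂ) (χ : Γ →* k) (F : Γ) {V : Type} [AddCommGroup V] [Module k V]
    (ρ : Representation k Γ V) (m : ℤ) : Prop :=
  ∀ a : k, Module.End.HasEigenvalue (ρ F) a → ‖j a‖ ^ 2 = ‖j (χ F)‖ ^ m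

/-- The determinant of `φ` on `V` is pure of weight `w * dim V`. -/
def PureDeterminant (j : k →+* ℂ) (χ : Γ →* k) (P : Piece k Γ) (φ : Γ) : Prop :=
  ‖j (LinearMap.det (P.ρ φ))‖ ^ 2 = ‖j (χ φ)‖ ^ (P.w * finrank k P.V)

/-- `γ` acts on `V` by a unipotent operator with only one Jordan block. -/
def OneJordanBlock (P : Piece k Γ) (γ : Γ) : Prop :=
  IsNilpotent (P.ρ γ - 1) ∧ (P.ρ γ - 1) ^ (finrank k P.V - 1) ≠ 0

/-- The relation `φ γ = γ ^ q φ` of the tame inertia group holds on `V`. -/
def TameRelation (P : Piece k Γ) (γ φ : Γ) (q : ℕ) : Prop :=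
  P.ρ φ * P.ρ γ = P.ρ γ ^ q * P.ρ φ

/-- `V i` has a place of maximally unipotent monodromy where `M` and the other `V i'` have good
reduction: there are elements `γ` (a generator of the tame inertia group) and `φ` (a Frobenius element
of the place) and an integer `q ≥ 2` such that

* `γ` acts on `V i` by a unipotent operator with only one Jordan block, the relation
  `φ γ = γ ^ q φ` of the tame inertia group holds on `V i`, and the determinant of `φ` on `V i` is
  pure of weight `w i * dim (V i)`;
* `γ` acts trivially on `M` and on the other `V i'`, and `φ` is pure of weight `m` on `M` and of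
  weight `w i'` on the other `V i'`. -/
def MaximallyUnipotentPlace (P : I → Piece k Γ) {M : Type} [AddCommGroup M] [Module k M]
    (τ : Representation k Γ M) (χ : Γ →* k) (j : k →+* ℂ) (m : ℤ) (i : I) : Prop :=
  ∃ (γ φ : Γ) (q : ℕ), 2 ≤ q ∧ OneJordanBlock (P i) γ ∧ TameRelation (P i) γ φ q ∧
    PureDeterminant j χ (P i) φ ∧ (τ γ = 1 ∧ ∀ i', i' ≠ i → (P i').ρ γ = 1) ∧
    IsPure j χ φ τ m ∧ ∀ i', i' ≠ i → IsPure j χ φ (P i').ρ (P i').w

/-- `V` is not isomorphic to its dual up to a twist: a bilinear form on `V` which every element of `Γ`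
multiplies by a scalar is zero. -/
def NotSelfDual (P : Piece k Γ) : Prop :=
  ∀ B : P.V →ₗ[k] P.V →ₗ[k] k,
    (∀ g : Γ, ∃ c : k, ∀ u v, value B (move P.ρ g u) (move P.ρ g v) = c * value B u v) →
      ∀ u v, value B u v = 0

end Pool.Agent.Helper86.LTS
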