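import Pool.Agent.Helper86.LT.Sl2

/-!
# The two largest powers of `e`
-/

set_option autoImplicit false
set_option linter.unusedSectionVars false

namespace Pool.Agent.Helper86.LT

open Module Finset Pool.Agent.Y126.JB Pool.Agent.Y126.MU

section

variable {K : Type*} [Field K] [CharZero K] {T : Type*} [AddCommGroup T] [Module K T]
  [FiniteDimensional K T] {e h f : End K T} {D : ℕ} {w : ℕ → T} (hp : Prin e h f D w)
  {ω : T →ₗ[K] T →ₗ[K] K}
  (he : ∀ u v, ω (e u) v + ω u (e v) = 0)
  (hh : ∀ u v, ω (h u) v + ω u (h v) = 0)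
  (hf : ∀ u v, ω (f u) v + ω u (f v) = 0)
  (hnd : ∀ u, (∀ v, ω u v = 0) → u = 0)
  {L : Submodule K (End K T)} (hbr : ∀ Y ∈ L, ∀ Z ∈ L, Y * Z - Z * Y ∈ L)

include hp hbr in
/-- Elements of large weight vanish. -/
theorem high (heL : e ∈ L) {k : ℕ} (hmax : ∀ k', k < k' → k' ≤ D → e ^ k' ∉ L) {m : ℕ}
    (hm : k < m) {X : End K T} (hX : X ∈ L) (hXw : ad K h X = (2 * (m : K)) • X) : X = 0 := by
  by_contra hX0
  have hex : ∃ n, (ad K e ^ n) X = 0 := by
    obtain ⟨n, hn⟩ := ad_nilpotent (K := K) hp.nil
    exact ⟨n, by rw [hn, LinearMap.zero_apply]⟩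
  classical
  have h1 := Nat.find_spec hex
  have h2 : Nat.find hex ≠ 0 := by
    intro h2
    rw [h2, _root_.pow_zero, Module.End.one_apply] at h1
    exact hX0 h1
  obtain ⟨n, hn⟩ := Nat.exists_eq_succ_of_ne_zero h2
  have h3 := Nat.find_min hex (m := n) (by omega)
  rw [hn, Nat.succ_eq_add_one, pow_succ', Module.End.mul_apply] at h1
  have hadh : ad K (ad K h) (ad K e) = (2 : K) • ad K e := by
    rw [ad_ad, hp.he, ad_smul']
  obtain ⟨k', c, hk', hk0, hc, hY⟩ := hp.centr h3 h1 (h_pow_apply hadh hXw n)
  have h4 : k' = m + n := by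
    have h5 : (2 : K) * ((k' : K) - (m + n : ℕ)) = 0 := by
      push_cast
      linear_combination -hk0
    exact Nat.cast_injective (sub_eq_zero.1 ((mul_eq_zero.1 h5).resolve_left two_ne_zero))
  refine hmax k' (by omega) hk' ((Submodule.smul_mem_iff _ hc).1 ?_)
  rw [← hY]
  exact ad_pow_mem hbr heL hX n

include hp hbr in
/-- The elements of the largest weight. -/
theorem highest (heL : e ∈ L) {k : ℕ} (hmax : ∀ k', k < k' → k' ≤ D → e ^ k' ∉ L)
    {X : End K T} (hX : X ∈ L) (hXw : ad K h X = (2 * (k : K)) • X) : ∃ c : K, X = c • e ^ k := by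
  by_cases hX0 : X = 0
  · exact ⟨0, by rw [hX0, zero_smul]⟩
  have h1 : ad K e X = 0 := by
    refine high hp hbr heL hmax (Nat.lt_succ_self k) (hbr e heL X hX) ?_
    rw [ad_jac, hp.he, ad_smul', LinearMap.smul_apply, hXw, map_smul]
    push_cast
    module
  obtain ⟨k', c, -, hk0, -, hY⟩ := hp.centr hX0 h1 hXw
  have h4 : k' = k := by
    have h5 : (2 : K) * ((k' : K) - k) = 0 := by
      linear_combination -hk0
    exact Nat.cast_injective (sub_eq_zero.1 ((mul_eq_zero.1 h5).resolve_left two_ne_zero))
  exact ⟨c, by rw [hY, h4]⟩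

include hp hbr in
/-- The elements of the second largest weight are given by affine functions. -/
theorem second (heL : e ∈ L) {k : ℕ} (hmax : ∀ k', k + 1 < k' → k' ≤ D → e ^ k' ∉ L)
    {X : End K T} (hX : X ∈ L) (hXw : ad K h X = (2 * (k : K)) • X) :
    ∃ β c : K, ∀ i, i + k ≤ D → X (w i) = (β - c * i) • w (i + k) := by
  obtain ⟨c, hc⟩ := highest hp hbr heL hmax (hbr e heL X hX) (by
    change ad K h (ad K e X) = _
    rw [ad_jac, hp.he, ad_smul', LinearMap.smul_apply, hXw, map_smul]
    change _ = _ • ad K e X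
    push_cast
    module)
  choose b hb using fun i => hp.wt hXw i
  refine ⟨b 0, c, fun i => ?_⟩
  have key : i + k ≤ D → b i = b 0 - c * i := by
    induction i with
    | zero =>
      intro _
      push_cast
      ring
    | succ i ih =>
      intro hi
      have h1 := LinearMap.congr_fun hc (w i)
      rw [LinearMap.sub_apply, Module.End.mul_apply, Module.End.mul_apply, hp.e_w, hb, hb,
        map_smul, hp.e_w, LinearMap.smul_apply, hp.pow, show i + 1 + k = i + k + 1 by omega,
        show i + (k + 1) = i + k + 1 by omega, ← sub_smul] at h1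
      have h2 := coef hp (show i + k + 1 ≤ D by omega) h1
      have h3 := ih (by omega)
      push_cast
      linear_combination h3 - h2
  intro hi
  rw [hb, key hi]

include hp he hh hf hnd hbr in
/-- **The two largest powers.** -/
theorem top_two (heL : e ∈ L) (hfL : f ∈ L) {a : ℕ} (ha : Even a) (h2a : 2 ≤ a) (haD : a ≤ D)
    (haL : e ^ a ∈ L) : e ^ D ∈ L ∧ e ^ (D - 1) ∈ L := by
  classical
  obtain ⟨a', rfl⟩ : ∃ a', a = a' + 1 := ⟨a - 1, by omega⟩
  -- the diagonal element
  obtain ⟨t, ht⟩ : ∃ t, t = (ad K f ^ (a' + 1)) (e ^ (a' + 1)) := ⟨_, rfl⟩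
  have htL : t ∈ L := by
    rw [ht]
    exact ad_pow_mem hbr hfL haL _
  have htw : ad K h t = (2 * ((0 : ℕ) : K)) • t := by
    rw [ht, hp.ad_f_pow (hp.ad_e_pow' (a' + 1))]
    congr 1
    push_cast
    ring
  choose g hg using fun i => hp.wt htw i
  simp only [add_zero] at hg
  -- it is symmetric
  have hadj : ∀ n u v, ω (((ad K f ^ n) (e ^ (a' + 1))) u) v =
      ω u (((ad K f ^ n) (e ^ (a' + 1))) v) := by
    intro n
    induction n with
    | zero =>
      intro u v
      rw [_root_.pow_zero, Module.End.one_apply, om_pow he, ha.neg_one_pow, one_mul]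
    | succ n ih =>
      intro u v
      rw [pow_succ', Module.End.mul_apply, ad_apply, LinearMap.sub_apply, LinearMap.sub_apply,
        Module.End.mul_apply, Module.End.mul_apply, Module.End.mul_apply, Module.End.mul_apply,
        map_sub, map_sub, LinearMap.sub_apply]
      have h1 := hf (((ad K f ^ n) (e ^ (a' + 1))) u) v
      have h2 := hf u (((ad K f ^ n) (e ^ (a' + 1))) v)
      have h3 := ih (f u) v
      have h4 := ih u (f v)
      linear_combination h1 - h2 - h3 - h4
  have hsym : ∀ i, i ≤ D → g (D - i) = g i := by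
    intro i hi
    have h1 := hadj (a' + 1) (w i) (w (D - i))
    rw [← ht, hg, hg, map_smul, map_smul, LinearMap.smul_apply, smul_eq_mul, smul_eq_mul] at h1
    exact (mul_right_cancel₀ (hp.pair' he hh hnd hi) h1).symm
  -- it is not constant
  have hne : g 1 ≠ g 0 := by
    intro h01
    have h1 := (e_f_pow (ad_ef hp) (ad_hf hp) (ad_e_pow (K := K) (e := e) (a' + 1))
      (h_e_pow hp (a' + 1)) a').2
    rw [← ht] at h1
    have h2 := LinearMap.congr_fun h1 (w 0)
    have h3 : ∀ (n : ℕ) (Y : End K T), ((ad K f ^ n) Y) (w 0) = (f ^ n) (Y (w 0)) := by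
      intro n Y
      induction n with
      | zero => rfl
      | succ n ih =>
        rw [pow_succ', Module.End.mul_apply, ad_apply, LinearMap.sub_apply, Module.End.mul_apply,
          Module.End.mul_apply, hp.f_zero, map_zero, sub_zero, ih, pow_succ', Module.End.mul_apply]
    obtain ⟨c, hc, h4⟩ := hp.f_pow (j := a') (k := a' + 1) (by omega) haD
    rw [ad_apply, LinearMap.sub_apply, Module.End.mul_apply, Module.End.mul_apply, hp.e_w, hg, hg,
      map_smul, hp.e_w, h01, sub_self, LinearMap.smul_apply, h3, hp.pow, zero_add, h4, smul_smul,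
      show a' + 1 - a' = 1 by omega] at h2
    have h5 := (smul_eq_zero.1 h2.symm).resolve_right (hp.ne_zero (by omega))
    rcases mul_eq_zero.1 h5 with h6 | h6
    · rcases mul_eq_zero.1 h6 with h7 | h7
      · exact Nat.cast_add_one_ne_zero a' h7
      · rw [sub_eq_zero] at h7
        have h8 := Nat.cast_injective (R := K) h7
        omega
    · exact hc h6
  -- the largest power
  obtain ⟨k, hak, hkD, hkL, hmax⟩ : ∃ k, a' + 1 ≤ k + 1 ∧ k + 1 ≤ D ∧ e ^ (k + 1) ∈ L ∧
      ∀ k', k + 1 < k' → k' ≤ D → e ^ k' ∉ L := by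
    obtain ⟨k, hk⟩ : ∃ k, Nat.findGreatest (fun k => e ^ k ∈ L) D = k := ⟨_, rfl⟩
    have h1 : a' + 1 ≤ k := by
      rw [← hk]
      exact Nat.le_findGreatest haD haL
    obtain ⟨k', rfl⟩ : ∃ k', k = k' + 1 := ⟨k - 1, by omega⟩
    refine ⟨k', h1, ?_, ?_, ?_⟩
    · rw [← hk]
      exact Nat.findGreatest_le D
    · rw [← hk]
      exact Nat.findGreatest_spec (P := fun k => e ^ k ∈ L) haD haL
    · intro r hr hrD
      rw [← hk] at hr
      exact Nat.findGreatest_is_greatest hr hrD
  obtain ⟨n, hn⟩ : ∃ n, n + k = D := ⟨D - k, by omega⟩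
  have hn1 : 1 ≤ n := by omega
  have hDnk : (D : K) = n + k := by exact_mod_cast hn.symm
  have hk1 : ((k : K) + 1) ≠ 0 := Nat.cast_add_one_ne_zero k
  -- the commutator with `f`
  obtain ⟨Y, hY⟩ : ∃ Y, Y = ad K f (e ^ (k + 1)) := ⟨_, rfl⟩
  have hYL : Y ∈ L := by
    rw [hY]
    exact hbr f hfL _ hkL
  have hYw : ∀ i, Y (w i) = (((k : K) + 1) * ((n : K) - 2 * i)) • w (i + k) := by
    intro i
    rw [hY, ad_apply, LinearMap.sub_apply, Module.End.mul_apply, Module.End.mul_apply, hp.pow,
      ← add_assoc, hp.f_w]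
    cases i with
    | zero =>
      rw [hp.f_zero, map_zero, sub_zero]
      congr 1
      rw [hDnk]
      push_cast
      ring
    | succ i =>
      rw [hp.f_w, map_smul, hp.pow, show i + (k + 1) = i + 1 + k by omega, ← sub_smul]
      congr 1
      rw [hDnk]
      push_cast
      ring
  have hYad : ad K h Y = (2 * (k : K)) • Y := by
    have h1 := hp.ad_f_pow (hp.ad_e_pow' (k + 1)) 1
    rw [pow_one, ← hY] at h1
    rw [h1]
    congr 1
    push_cast
    ring
  -- brackets with the diagonal element
  have hbt : ∀ {m : ℕ} {X : End K T}, ad K h X = (2 * (m : K)) • X →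
      ad K h (ad K t X) = (2 * (m : K)) • ad K t X := by
    intro m X hX
    rw [ad_jac, htw, hX, map_smul]
    push_cast
    rw [mul_zero, zero_smul, ad_apply (0 : End K T), zero_mul, mul_zero, sub_zero, zero_add]
  -- the function `g (i + k) - g i`
  have hanti : ∀ i, i ≤ n → g (n - i + k) - g (n - i) = -(g (i + k) - g i) := by
    intro i hi
    have h1 := hsym i (by omega)
    have h2 := hsym (i + k) (by omega)
    rw [show D - i = n - i + k by omega] at h1
    rw [show D - (i + k) = n - i by omega] at h2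
    rw [h1, h2]
    ring
  obtain ⟨β, c, hβ⟩ := second hp hbr heL hmax (hbr t htL Y hYL) (hbt hYad)
  have hβ' : ∀ i, i ≤ n → (g (i + k) - g i) * (((k : K) + 1) * ((n : K) - 2 * i)) = β - c * i := by
    intro i hi
    have h1 := hβ i (by omega)
    rw [LinearMap.sub_apply, Module.End.mul_apply, Module.End.mul_apply, hYw, hg, map_smul, hg,
      map_smul, hYw, smul_smul, smul_smul, ← sub_smul] at h1
    rw [← coef hp (show i + k ≤ D by omega) h1]
    ring
  have hc0 : c = 0 := by
    have h1 := hβ' 0 (Nat.zero_le n)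
    have h2 := hβ' n le_rfl
    have h3 := hanti 0 (Nat.zero_le n)
    rw [Nat.sub_zero] at h3
    rw [h3] at h2
    have h4 : c * (n : K) = 0 := by
      push_cast at h1
      linear_combination h2 - h1
    exact (mul_eq_zero.1 h4).resolve_right (Nat.cast_ne_zero.2 (by omega))
  have hβ2 : ∀ i, i ≤ n → (g (i + k) - g i) * (((k : K) + 1) * ((n : K) - 2 * i)) = β := by
    intro i hi
    rw [hβ' i hi, hc0, zero_mul, sub_zero]
  by_cases hβ0 : β = 0
  · -- impossible
    exfalso
    have h1 : g k = g 0 := by
      have h2 := hβ2 0 (Nat.zero_le n)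
      rw [hβ0, zero_add] at h2
      refine sub_eq_zero.1 ((mul_eq_zero.1 h2).resolve_right (mul_ne_zero hk1 ?_))
      rw [Nat.cast_zero, mul_zero, sub_zero]
      exact Nat.cast_ne_zero.2 (by omega)
    have h2 : g (k + 1) = g 0 := by
      obtain ⟨c', hc'⟩ := highest hp hbr heL hmax (hbr t htL _ hkL)
        (hbt (hp.ad_e_pow' (k + 1)))
      have h3 : ∀ i, i + (k + 1) ≤ D → g (i + (k + 1)) - g i = c' := by
        intro i hi
        have h4 := LinearMap.congr_fun hc' (w i)
        rw [LinearMap.sub_apply, Module.End.mul_apply, Module.End.mul_apply, hp.pow, hg, hg,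
          map_smul, LinearMap.smul_apply, hp.pow, ← sub_smul] at h4
        exact coef hp hi h4
      have h5 := h3 0 (by omega)
      have h6 := h3 (n - 1) (by omega)
      rw [show n - 1 + (k + 1) = D by omega] at h6
      have h7 := hsym 0 (Nat.zero_le D)
      rw [Nat.sub_zero] at h7
      have h8 := hsym (k + 1) (by omega)
      rw [show D - (k + 1) = n - 1 by omega] at h8
      rw [h7, h8] at h6
      rw [zero_add] at h5
      have h9 : (2 : K) * (g (k + 1) - g 0) = 0 := by linear_combination h5 - h6
      exact sub_eq_zero.1 ((mul_eq_zero.1 h9).resolve_left two_ne_zero)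
    by_cases hn2 : n = 2
    · have h3 := hsym 1 (by omega)
      rw [show D - 1 = k + 1 by omega, h2] at h3
      exact hne h3.symm
    · have h3 := hβ2 1 hn1
      rw [hβ0] at h3
      have h4 : g (1 + k) = g 1 := by
        refine sub_eq_zero.1 ((mul_eq_zero.1 h3).resolve_right (mul_ne_zero hk1 ?_))
        rw [sub_ne_zero]
        intro h5
        apply hn2
        have h6 : (n : K) = (2 : ℕ) := by
          rw [h5]
          push_cast
          ring
        exact Nat.cast_injective h6
      rw [add_comm 1 k, h2] at h4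
      exact hne h4.symm
  · -- the second power
    have hkL' : e ^ k ∈ L := by
      have h1 : ad K t Y = β • e ^ k := by
        refine hp.ext fun i _ => ?_
        rw [LinearMap.smul_apply, hp.pow]
        by_cases hi : i + k ≤ D
        · have h2 := hβ i hi
          rw [hc0, zero_mul, sub_zero] at h2
          exact h2
        · rw [ad_apply, LinearMap.sub_apply, Module.End.mul_apply, Module.End.mul_apply, hYw, hg,
            map_smul, map_smul, hYw, hp.zero (i := i + k) (by omega)]
          simp only [map_zero, smul_zero, sub_zero]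
      have h3 : ad K t Y ∈ L := hbr t htL Y hYL
      rw [h1] at h3
      exact (Submodule.smul_mem_iff _ hβ0).1 h3
    obtain ⟨β', c', hβ'2⟩ := second hp hbr heL hmax (hbr t htL _ hkL') (hbt (hp.ad_e_pow' k))
    have h1 : ∀ i, i ≤ n → g (i + k) - g i = β' - c' * i := by
      intro i hi
      have h2 := hβ'2 i (by omega)
      rw [LinearMap.sub_apply, Module.End.mul_apply, Module.End.mul_apply, hp.pow, hg, hg,
        map_smul, hp.pow, ← sub_smul] at h2
      exact coef hp (by omega) h2
    have h2 : c' * n = 2 * β' := by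
      have h3 := h1 0 (Nat.zero_le n)
      have h4 := h1 n le_rfl
      have h5 := hanti 0 (Nat.zero_le n)
      rw [Nat.sub_zero] at h5
      rw [h5] at h4
      push_cast at h3
      linear_combination h3 + h4
    have hn1' : n = 1 := by
      by_contra hn1'
      apply hβ0
      have h3 := hβ2 0 (Nat.zero_le n)
      have h4 := hβ2 1 hn1
      rw [h1 0 (Nat.zero_le n)] at h3
      rw [h1 1 hn1] at h4
      have h5 : β' * (n : K) = (β' - c') * ((n : K) - 2) := by
        have h6 : ((k : K) + 1) * (β' * (n : K) - (β' - c') * ((n : K) - 2)) = 0 := by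
          push_cast at h3 h4
          linear_combination h3 - h4
        exact sub_eq_zero.1 ((mul_eq_zero.1 h6).resolve_left hk1)
      have h6 : c' * (2 * (n : K) - 2) = 0 := by linear_combination h5 + h2
      have h7 : c' = 0 := by
        refine (mul_eq_zero.1 h6).resolve_right ?_
        intro h8
        apply hn1'
        have h9 : (2 : K) * ((n : K) - (1 : ℕ)) = 0 := by
          push_cast
          linear_combination h8
        exact Nat.cast_injective (sub_eq_zero.1 ((mul_eq_zero.1 h9).resolve_left two_ne_zero))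
      have h8 : β' = 0 := by
        rw [h7, zero_mul] at h2
        exact (mul_eq_zero.1 h2.symm).resolve_left two_ne_zero
      rw [h7, h8] at h3
      rw [← h3]
      ring
    have hkD' : k + 1 = D := by omega
    refine ⟨?_, ?_⟩
    · rw [← hkD']
      exact hkL
    · rw [← hkD', Nat.add_sub_cancel]
      exact hkL'

end

end Pool.Agent.Helper86.LT
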